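import Pool.Agent.Q184.BW.Core

/-!
# The one dimensional lattice and the first doubling
-/

set_option autoImplicit false

namespace Q184.BW

variable {E E' : Type*} [NormedAddCommGroup E] [InnerProductSpace ℝ E]
  [NormedAddCommGroup E'] [InnerProductSpace ℝ E']

/-- The lattice is generated over the Gaussian integers by one vector, which spans. -/
structure Base (P : Lvl E) where
  e : E
  inn : inner ℝ e e = P.m
  span : ∀ x : E, ∃ s t : ℝ, x = s • e + t • P.I e
  mem : ∀ x : E, x ∈ P.L ↔ ∃ s t : ℤ, x = (s : ℝ) • e + (t : ℝ) • P.I e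

namespace Base

variable {P : Lvl E} {Q : Lvl E'} (B : Base P)

include B

theorem e_mem : B.e ∈ P.C := ⟨(B.mem _).mpr ⟨1, 0, by simp⟩, B.inn⟩

theorem cases {x : E} (hx : x ∈ P.C) : x = B.e ∨ x = -B.e ∨ x = P.I B.e ∨ x = -P.I B.e := by
  obtain ⟨h1, h2⟩ := hx
  obtain ⟨s, t, rfl⟩ := (B.mem _).mp h1
  have hm := P.mpos
  simp only [inner_add_left, inner_add_right, inner_smul_left, inner_smul_right, conj_trivial,
    P.innI, P.inn_I_self, P.inn_I_self', B.inn] at h2
  have h3 : ((s : ℝ) * s + t * t) * P.m = 1 * P.m := by linarith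
  have h4 : (s : ℝ) * s + t * t = 1 := mul_right_cancel₀ hm.ne' h3
  have h5 : s * s + t * t = 1 := by exact_mod_cast h4
  have hs : s ≤ 1 := by nlinarith
  have hs' : -1 ≤ s := by nlinarith
  have htt : t ≤ 1 := by nlinarith
  have htt' : -1 ≤ t := by nlinarith
  interval_cases s <;> interval_cases t <;> simp_all

theorem rel {x y : E} (hx : x ∈ P.C) (hy : y ∈ P.C) :
    y = x ∨ y = -x ∨ y = P.I x ∨ y = -P.I x := by
  rcases B.cases hx with rfl | rfl | rfl | rfl <;> rcases B.cases hy with rfl | rfl | rfl | rfl <;>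
    simp [P.II]

theorem all_sim {x y : E} (hx : x ∈ P.C) (hy : y ∈ P.C) : P.sim x y := by
  rcases B.rel hx hy with rfl | rfl | rfl | rfl
  · exact P.sim_refl _
  · exact P.sim_neg_self hx.1
  · exact P.sim_I hx.1
  · exact P.sim_neg_I hx.1

theorem ext0 {x : E} (hx : x ∈ P.C) (w : E) (h1 : inner ℝ w x = 0) (h2 : inner ℝ w (P.I x) = 0) :
    w = 0 := by
  have key : inner ℝ w B.e = 0 ∧ inner ℝ w (P.I B.e) = 0 := by
    rcases B.cases hx with rfl | rfl | rfl | rfl
    · exact ⟨h1, h2⟩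
    · rw [map_neg, inner_neg_right, neg_eq_zero] at h2
      rw [inner_neg_right, neg_eq_zero] at h1
      exact ⟨h1, h2⟩
    · rw [P.II, inner_neg_right, neg_eq_zero] at h2
      exact ⟨h2, h1⟩
    · rw [map_neg, P.II, neg_neg] at h2
      rw [inner_neg_right, neg_eq_zero] at h1
      exact ⟨h2, h1⟩
  obtain ⟨s, t, hw⟩ := B.span w
  have h3 : inner ℝ w w = 0 := by
    nth_rewrite 2 [hw]
    rw [inner_add_right, inner_smul_right, inner_smul_right, key.1, key.2]
    ring
  exact inner_self_eq_zero.mp h3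

theorem ext {x : E} (hx : x ∈ P.C) (w : E) (h1 : inner ℝ w (P.lam x) = 0)
    (h2 : inner ℝ w (P.lam (-P.I x)) = 0) : w = 0 := by
  rw [Lvl.lam_apply, inner_add_right] at h1
  rw [Lvl.lam_apply, map_neg, P.II, neg_neg, inner_add_right, inner_neg_right] at h2
  exact B.ext0 hx w (by linarith) (by linarith)

theorem lam_neg_I {x : E} (hx : x ∈ P.C) : inner ℝ (P.lam (-P.I x)) x = P.m := by
  rw [Lvl.lam_apply, map_neg, P.II, neg_neg, inner_add_left, inner_neg_left, P.inn_I_self', hx.2,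
    neg_zero, zero_add]

theorem good : P.Good := by
  refine ⟨?_, ⟨B.e, B.e_mem⟩, ?_, ?_, ?_, ?_⟩
  · have h1 : P.C ⊆ {B.e, -B.e, P.I B.e, -P.I B.e} := by
      intro x hx
      rcases B.cases hx with h | h | h | h <;> simp [h]
    exact Set.Finite.subset (Set.toFinite _) h1
  · intro b hb w hw
    exact B.ext0 hb w (hw b hb (P.sim_refl b)) (hw _ (P.C_I hb) (P.sim_I hb.1))
  · intro b hb w hw
    exact B.ext hb w (hw b hb (P.lam_self hb)) (hw _ (P.C_neg (P.C_I hb)) (B.lam_neg_I hb))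
  · intro b hb c hc _
    rcases B.rel hb hc with rfl | rfl | rfl | rfl
    · exact ⟨LinearMap.id, ⟨fun _ _ => rfl, fun _ => rfl, fun x _ => P.sim_refl x⟩, rfl⟩
    · refine ⟨-LinearMap.id, ⟨fun _ _ => ?_, fun _ => ?_, fun x hx => P.sim_neg_self hx⟩, rfl⟩
      · simp
      · simp
    · exact ⟨P.I, ⟨P.innI, fun _ => rfl, fun x hx => P.sim_I hx⟩, rfl⟩
    · refine ⟨-P.I, ⟨fun _ _ => ?_, fun _ => ?_, fun x hx => P.sim_neg_I hx⟩, rfl⟩
      · simp [P.innI]
      · simp
  · intro S hS x hx y hy hxS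
    exact (hS x hx y hy (P.G_of_sim (B.all_sim hx hy))).mp hxS

theorem two {x : E} (hx : x ∈ P.C) (w : E) (h : inner ℝ w (P.lam x) = 0) :
    w = (inner ℝ w (P.I (P.lam x)) / (2 * P.m)) • P.I (P.lam x) := by
  have hm := P.mpos
  rw [← sub_eq_zero]
  set c := inner ℝ w (P.I (P.lam x)) / (2 * P.m) with hc
  have hcm : c * (2 * P.m) = inner ℝ w (P.I (P.lam x)) := by
    rw [hc]; field_simp
  refine B.ext (P.C_neg (P.C_I hx)) _ ?_ ?_
  · have e : P.lam (-P.I x) = -P.I (P.lam x) := by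
      rw [map_neg, Lvl.lam_apply, Lvl.lam_apply, map_add]
    rw [e, inner_neg_right, inner_sub_left, inner_smul_left, P.innI, P.lam_lam, hx.2]
    simp only [conj_trivial]
    linarith
  · have e : P.lam (-P.I (-P.I x)) = - P.lam x := by
      rw [map_neg P.I, P.II, neg_neg, map_neg]
    rw [e, inner_neg_right, inner_sub_left, h, inner_smul_left, P.I_skew, P.inn_I_self]
    simp

theorem core [FiniteDimensional ℝ E] (D : Dbl P Q) (v : E' → E')
    (ht : ∀ x ∈ Q.C, inner ℝ (v x) x = 0)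
    (hc : ∀ x ∈ Q.C, ∀ y ∈ Q.C, inner ℝ x y = Q.m / 2 →
      inner ℝ (v x) y + inner ℝ x (v y) = 0)
    (p q : E → E) (φ ψ : E → ℝ)
    (h1 : ∀ a ∈ P.C, v (D.J (P.lam a, 0)) = D.J (φ a • P.I (P.lam a), p a))
    (h2 : ∀ a ∈ P.C, v (D.J (0, P.lam a)) = D.J (q a, ψ a • P.I (P.lam a)))
    (hφ : ∀ a ∈ P.C, φ (-P.I a) = - φ a) (hψ : ∀ a ∈ P.C, ψ (-P.I a) = - ψ a) :
    ∃ A : E' →ₗ[ℝ] E', (∀ u w, inner ℝ (A u) w = - inner ℝ u (A w)) ∧ ∀ x ∈ Q.C, v x = A x := by
  have hm := P.mpos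
  have hm2 : Q.m / 2 = P.m := by rw [D.hm]; ring
  have hodd : ∀ {x y : E'}, x ∈ Q.C → y ∈ Q.C → inner ℝ x y = P.m →
      inner ℝ x (v y) + inner ℝ x (v (-y)) = 0 := fun {x y} hx hy hxy =>
    Q.odd v ht hc hx hy (by rw [hm2]; exact hxy)
  set r : E → E → E := fun b c => (D.J.symm (v (D.J (b, c)))).1 with hr
  set s : E → E → E := fun b c => (D.J.symm (v (D.J (b, c)))).2 with hs
  have hv : ∀ b c, v (D.J (b, c)) = D.J (r b c, s b c) := by
    intro b c
    rw [hr, hs]
    simp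
  have hlI : ∀ b, P.I (P.lam b) = P.I b - b := by
    intro b; rw [Lvl.lam_apply, map_add, P.II]; abel
  have EA : ∀ a ∈ P.C, ∀ b ∈ P.C, ∀ c ∈ P.C, inner ℝ (P.lam a) b = P.m →
      φ a * inner ℝ (P.I (P.lam a)) b + inner ℝ (p a) c + inner ℝ (P.lam a) (r b c) = 0 := by
    intro a ha b hb c hc' hab
    have e := hc _ (D.C1 ha) _ (D.C3 hb hc' (B.all_sim hb hc')) (by
      rw [D.inn, hab, inner_zero_left, add_zero, hm2])
    rw [h1 a ha, hv, D.inn, D.inn, inner_zero_left, inner_smul_left] at e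
    simp only [conj_trivial] at e
    linarith
  have EB : ∀ a ∈ P.C, ∀ b ∈ P.C, ∀ c ∈ P.C, inner ℝ (P.lam a) c = P.m →
      ψ a * inner ℝ (P.I (P.lam a)) c + inner ℝ (q a) b + inner ℝ (P.lam a) (s b c) = 0 := by
    intro a ha b hb c hc' hac
    have e := hc _ (D.C2 ha) _ (D.C3 hb hc' (B.all_sim hb hc')) (by
      rw [D.inn, hac, inner_zero_left, zero_add, hm2])
    rw [h2 a ha, hv, D.inn, D.inn, inner_zero_left, inner_smul_left] at e
    simp only [conj_trivial] at e
    linarith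
  have T : ∀ b ∈ P.C, ∀ c ∈ P.C, inner ℝ (r b c) b + inner ℝ (s b c) c = 0 := by
    intro b hb c hc'
    have e := ht _ (D.C3 hb hc' (B.all_sim hb hc'))
    rw [hv, D.inn] at e
    exact e
  have in1 : ∀ b ∈ P.C, inner ℝ (P.I (P.lam b)) b = - P.m := by
    intro b hb
    rw [hlI, inner_sub_left, P.inn_I_self', hb.2, zero_sub]
  have in2 : ∀ b ∈ P.C, inner ℝ (P.I (P.lam (-P.I b))) b = P.m := by
    intro b hb
    rw [hlI, map_neg, P.II, neg_neg, inner_sub_left, inner_neg_left, P.inn_I_self', hb.2]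
    ring
  -- the sums over two signs
  have hα : ∀ b ∈ P.C, ∀ c ∈ P.C, inner ℝ (r b c) b + inner ℝ (r b (-c)) b = 2 * P.m * φ b := by
    intro b hb c hc'
    have e1 := EA b hb b hb c hc' (P.lam_self hb)
    have e2 := EA b hb b hb (-c) (P.C_neg hc') (P.lam_self hb)
    have e3 := EA (-P.I b) (P.C_neg (P.C_I hb)) b hb c hc' (B.lam_neg_I hb)
    have e4 := EA (-P.I b) (P.C_neg (P.C_I hb)) b hb (-c) (P.C_neg hc') (B.lam_neg_I hb)
    rw [in1 b hb] at e1 e2
    rw [in2 b hb, hφ b hb] at e3 e4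
    rw [inner_neg_right] at e2 e4
    rw [P.lam_apply, inner_add_left] at e1 e2
    rw [P.lam_apply (-P.I b), map_neg, P.II, neg_neg, inner_add_left, inner_neg_left] at e3 e4
    rw [real_inner_comm b (r b c), real_inner_comm b (r b (-c))]
    linarith
  have hβ : ∀ b ∈ P.C, ∀ c ∈ P.C, inner ℝ (s b c) c + inner ℝ (s (-b) c) c = 2 * P.m * ψ c := by
    intro b hb c hc'
    have e1 := EB c hc' b hb c hc' (P.lam_self hc')
    have e2 := EB c hc' (-b) (P.C_neg hb) c hc' (P.lam_self hc')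
    have e3 := EB (-P.I c) (P.C_neg (P.C_I hc')) b hb c hc' (B.lam_neg_I hc')
    have e4 := EB (-P.I c) (P.C_neg (P.C_I hc')) (-b) (P.C_neg hb) c hc' (B.lam_neg_I hc')
    rw [in1 c hc'] at e1 e2
    rw [in2 c hc', hψ c hc'] at e3 e4
    rw [inner_neg_right] at e2 e4
    rw [P.lam_apply, inner_add_left] at e1 e2
    rw [P.lam_apply (-P.I c), map_neg, P.II, neg_neg, inner_add_left, inner_neg_left] at e3 e4
    rw [real_inner_comm c (s b c), real_inner_comm c (s (-b) c)]
    linarith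
  have hoddr : ∀ b ∈ P.C, ∀ c ∈ P.C, inner ℝ (r (-b) (-c)) (-b) = inner ℝ (r b c) b := by
    intro b hb c hc'
    have hz : r b c + r (-b) (-c) = 0 := by
      have key : ∀ a ∈ P.C, inner ℝ (P.lam a) b = P.m →
          inner ℝ (r b c + r (-b) (-c)) (P.lam a) = 0 := by
        intro a ha hab
        have e := hodd (D.C1 ha) (D.C3 hb hc' (B.all_sim hb hc')) (by
          rw [D.inn, hab, inner_zero_left, add_zero])
        rw [D.Jneg, hv, hv, D.inn, D.inn, inner_zero_left, inner_zero_left, add_zero,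
          add_zero] at e
        rw [inner_add_left, real_inner_comm (P.lam a), real_inner_comm (P.lam a)]
        exact e
      exact B.ext hb _ (key b hb (P.lam_self hb)) (key _ (P.C_neg (P.C_I hb)) (B.lam_neg_I hb))
    rw [eq_neg_of_add_eq_zero_right hz, inner_neg_neg]
  have hsum : ∀ b ∈ P.C, ∀ c ∈ P.C, φ b = - ψ c := by
    intro b hb c hc'
    have e1 := hα b hb c hc'
    have e2 := hβ b hb c hc'
    have t1 := T b hb c hc'
    have t2 := T (-b) (P.C_neg hb) c hc'
    have e3 := hoddr b hb (-c) (P.C_neg hc')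
    rw [neg_neg] at e3
    have e4 : 2 * P.m * (φ b + ψ c) = 0 := by linarith
    have e5 : φ b + ψ c = 0 := by
      rcases mul_eq_zero.mp e4 with h | h
      · linarith
      · exact h
    linarith
  have hφ0 : ∀ b ∈ P.C, φ b = 0 := by
    intro b hb
    have e1 := hsum b hb b hb
    have e2 := hsum _ (P.C_neg (P.C_I hb)) b hb
    rw [hφ b hb] at e2
    linarith
  have hψ0 : ∀ b ∈ P.C, ψ b = 0 := by
    intro b hb
    have e1 := hsum b hb b hb
    rw [hφ0 b hb] at e1
    linarith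
  refine D.core B.good v ht hc p q (fun a ha => ?_) (fun a ha => ?_)
  · rw [h1 a ha, hφ0 a ha, zero_smul]
  · rw [h2 a ha, hψ0 a ha, zero_smul]

/-- First order rigidity of the first doubling. -/
theorem ir [FiniteDimensional ℝ E] (D : Dbl P Q) : Q.IR := by
  intro v ht hc
  have hm := P.mpos
  have hm2 : Q.m / 2 = P.m := by rw [D.hm]; ring
  have hodd : ∀ {x y : E'}, x ∈ Q.C → y ∈ Q.C → inner ℝ x y = P.m →
      inner ℝ x (v y) + inner ℝ x (v (-y)) = 0 := fun {x y} hx hy hxy =>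
    Q.odd v ht hc hx hy (by rw [hm2]; exact hxy)
  have hvJ : ∀ x y, v (D.J (x, y)) =
      D.J ((D.J.symm (v (D.J (x, y)))).1, (D.J.symm (v (D.J (x, y)))).2) := by
    intro x y; simp
  have hlI : ∀ b, P.I (P.lam b) = P.I b - b := by
    intro b; rw [Lvl.lam_apply, map_add, P.II]; abel
  have in1 : ∀ b ∈ P.C, inner ℝ b (P.I (P.lam b)) = - P.m := by
    intro b hb
    rw [hlI, inner_sub_right, P.inn_I_self, hb.2, zero_sub]
  have pick : ∀ χ : E → ℝ, (∀ a ∈ P.C, χ (-a) = χ a) → ∃ t : ℝ,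
      ∀ a ∈ P.C, χ (-P.I a) - t = - (χ a - t) := by
    intro χ hχ
    refine ⟨(χ B.e + χ (P.I B.e)) / 2, fun a ha => ?_⟩
    have h3 := hχ B.e B.e_mem
    have h4 := hχ _ (P.C_I B.e_mem)
    rcases B.cases ha with rfl | rfl | rfl | rfl
    · linarith
    · rw [map_neg, neg_neg]; linarith
    · rw [P.II, neg_neg]; linarith
    · rw [map_neg, P.II, neg_neg]; linarith
  -- the first block
  obtain ⟨φ, hφ1, hφ2⟩ : ∃ φ : E → ℝ, (∀ a ∈ P.C, (D.J.symm (v (D.J (P.lam a, 0)))).1 =
      φ a • P.I (P.lam a)) ∧ ∀ a ∈ P.C, φ (-a) = φ a := by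
    have h1 : ∀ a ∈ P.C, (D.J.symm (v (D.J (P.lam a, 0)))).1 =
        (inner ℝ (D.J.symm (v (D.J (P.lam a, 0)))).1 (P.I (P.lam a)) / (2 * P.m)) •
          P.I (P.lam a) := by
      intro a ha
      refine B.two ha _ ?_
      have e := ht _ (D.C1 ha)
      rw [hvJ, D.inn, inner_zero_right, add_zero] at e
      exact e
    refine ⟨_, h1, fun a ha => ?_⟩
    set φ : E → ℝ := fun a => inner ℝ (D.J.symm (v (D.J (P.lam a, 0)))).1 (P.I (P.lam a)) /
      (2 * P.m) with hφ
    have h1' : ∀ a ∈ P.C, v (D.J (P.lam a, 0)) =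
        D.J (φ a • P.I (P.lam a), (D.J.symm (v (D.J (P.lam a, 0)))).2) := by
      intro a ha
      have := h1 a ha
      rw [hvJ, hφ, ← this]
      simp
    have key : ∀ c ∈ P.C, - φ a * P.m + φ (-a) * P.m +
        inner ℝ c ((D.J.symm (v (D.J (P.lam a, 0)))).2 +
          (D.J.symm (v (D.J (P.lam (-a), 0)))).2) = 0 := by
      intro c hc'
      have e := hodd (D.C3 ha hc' (B.all_sim ha hc')) (D.C1 ha) (by
        rw [D.inn, inner_zero_right, add_zero, real_inner_comm, P.lam_self ha])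
      rw [D.Jneg, ← map_neg, neg_zero, h1' a ha, h1' _ (P.C_neg ha), D.inn, D.inn,
        inner_smul_right, inner_smul_right, in1 a ha, map_neg P.lam, map_neg P.I, inner_neg_right,
        in1 a ha] at e
      rw [inner_add_right]
      rw [map_neg P.lam]
      linarith
    have k1 := key a ha
    have k2 := key (-a) (P.C_neg ha)
    rw [inner_neg_left] at k2
    have k3 : (φ (-a) - φ a) * P.m = 0 := by linarith
    have k4 := (mul_eq_zero.mp k3).resolve_right hm.ne'
    show φ (-a) = φ a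
    linarith
  obtain ⟨ψ, hψ1, hψ2⟩ : ∃ ψ : E → ℝ, (∀ a ∈ P.C, (D.J.symm (v (D.J (0, P.lam a)))).2 =
      ψ a • P.I (P.lam a)) ∧ ∀ a ∈ P.C, ψ (-a) = ψ a := by
    have h1 : ∀ a ∈ P.C, (D.J.symm (v (D.J (0, P.lam a)))).2 =
        (inner ℝ (D.J.symm (v (D.J (0, P.lam a)))).2 (P.I (P.lam a)) / (2 * P.m)) •
          P.I (P.lam a) := by
      intro a ha
      refine B.two ha _ ?_
      have e := ht _ (D.C2 ha)
      rw [hvJ, D.inn, inner_zero_right, zero_add] at e
      exact e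
    refine ⟨_, h1, fun a ha => ?_⟩
    set ψ : E → ℝ := fun a => inner ℝ (D.J.symm (v (D.J (0, P.lam a)))).2 (P.I (P.lam a)) /
      (2 * P.m) with hψ
    have h1' : ∀ a ∈ P.C, v (D.J (0, P.lam a)) =
        D.J ((D.J.symm (v (D.J (0, P.lam a)))).1, ψ a • P.I (P.lam a)) := by
      intro a ha
      have := h1 a ha
      rw [hvJ, hψ, ← this]
      simp
    have key : ∀ c ∈ P.C, - ψ a * P.m + ψ (-a) * P.m +
        inner ℝ c ((D.J.symm (v (D.J (0, P.lam a)))).1 +
          (D.J.symm (v (D.J (0, P.lam (-a))))).1) = 0 := by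
      intro c hc'
      have e := hodd (D.C3 hc' ha (B.all_sim hc' ha)) (D.C2 ha) (by
        rw [D.inn, inner_zero_right, zero_add, real_inner_comm, P.lam_self ha])
      rw [D.Jneg, ← map_neg, neg_zero, h1' a ha, h1' _ (P.C_neg ha), D.inn, D.inn,
        inner_smul_right, inner_smul_right, in1 a ha, map_neg P.lam, map_neg P.I, inner_neg_right,
        in1 a ha] at e
      rw [inner_add_right]
      rw [map_neg P.lam]
      linarith
    have k1 := key a ha
    have k2 := key (-a) (P.C_neg ha)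
    rw [inner_neg_left] at k2
    have k3 : (ψ (-a) - ψ a) * P.m = 0 := by linarith
    have k4 := (mul_eq_zero.mp k3).resolve_right hm.ne'
    show ψ (-a) = ψ a
    linarith
  obtain ⟨t, htφ⟩ := pick φ hφ2
  obtain ⟨u, huψ⟩ := pick ψ hψ2
  set Bm := D.lift (t • P.I) (u • P.I) with hB
  have hBs : ∀ x w, inner ℝ (Bm x) w = - inner ℝ x (Bm w) := by
    intro x w
    obtain ⟨a, b, rfl⟩ := D.ex x
    obtain ⟨c, d, rfl⟩ := D.ex w
    rw [hB, Dbl.lift_apply, Dbl.lift_apply, D.inn, D.inn]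
    simp only [LinearMap.smul_apply, inner_smul_left, inner_smul_right, conj_trivial, P.I_skew]
    ring
  obtain ⟨A, hAs, hAv⟩ := B.core D (fun x => v x - Bm x)
    (fun x hx => by
      have e := hBs x x
      rw [real_inner_comm (Bm x) x] at e
      show inner ℝ (v x - Bm x) x = 0
      rw [inner_sub_left, ht x hx]; linarith)
    (fun x hx y hy hxy => by
      have e := hc x hx y hy hxy
      have e' := hBs x y
      show inner ℝ (v x - Bm x) y + inner ℝ x (v y - Bm y) = 0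
      rw [inner_sub_left, inner_sub_right]; linarith)
    (fun a => (D.J.symm (v (D.J (P.lam a, 0)))).2) (fun a => (D.J.symm (v (D.J (0, P.lam a)))).1)
    (fun a => φ a - t) (fun a => ψ a - u)
    (fun a ha => by
      show v _ - Bm _ = _
      rw [hvJ, hB, Dbl.lift_apply, D.Jsub, hφ1 a ha, map_zero, sub_zero, sub_smul,
        D.J.symm_apply_apply]
      rfl)
    (fun a ha => by
      show v _ - Bm _ = _
      rw [hvJ, hB, Dbl.lift_apply, D.Jsub, hψ1 a ha, map_zero, sub_zero, sub_smul,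
        D.J.symm_apply_apply]
      rfl)
    htφ huψ
  refine ⟨A + Bm, fun x w => ?_, fun x hx => ?_⟩
  · rw [LinearMap.add_apply, LinearMap.add_apply, inner_add_left, inner_add_right, hAs, hBs]
    ring
  · have := hAv x hx
    rw [LinearMap.add_apply, ← this, sub_add_cancel]

end Base

end Q184.BW
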