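import Pool.Agent.Q184.BW.Good

/-!
# First order rigidity of the doubling
-/

set_option autoImplicit false

namespace Q184.BW

open Finset

variable {E E' : Type*} [NormedAddCommGroup E] [InnerProductSpace ℝ E]
  [NormedAddCommGroup E'] [InnerProductSpace ℝ E']

namespace Lvl

variable (P : Lvl E)

open Classical in
/-- The linear map with given odd values on a frame. -/
noncomputable def rl (h : P.C.Finite) (R : E → E) (x : E) : E →ₗ[ℝ] E :=
  ∑ c ∈ h.toFinset.filter (fun c => P.sim x c), ((1 / (2 * P.m)) • (innerₗ E c)).smulRight (R c)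

theorem rl_apply (h : P.C.Finite) (R : E → E) (hR : ∀ x ∈ P.C, R (-x) = - R x) (x c : E)
    (hc : c ∈ P.C) (hs : P.sim x c) : P.rl h R x c = R c := by
  classical
  have hm := P.mpos
  have hcn : c ≠ -c := by
    intro h0
    apply P.ne_zero_of_C hc
    have h9 : (2 : ℝ) • c = 0 := by
      rw [two_smul]
      nth_rewrite 2 [h0]
      rw [add_neg_cancel]
    simpa using h9
  have h1 : ∀ d ∈ h.toFinset.filter (fun c => P.sim x c), d ∉ ({c, -c} : Finset E) →
      (((1 / (2 * P.m)) • (innerₗ E d)).smulRight (R d)) c = 0 := by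
    intro d hd hd2
    rw [mem_filter, Set.Finite.mem_toFinset] at hd
    rw [mem_insert, mem_singleton, not_or] at hd2
    rcases P.tri hc hd.1 (P.sim_trans (P.sim_symm hs) hd.2) with h2 | h2 | h2
    · exact absurd h2 hd2.1
    · exact absurd h2 hd2.2
    · simp [real_inner_comm, h2]
  rw [rl, LinearMap.sum_apply]
  rw [← Finset.sum_subset (s₁ := {c, -c}) ?_ h1]
  · rw [Finset.sum_pair hcn, hR c hc]
    simp only [LinearMap.smulRight_apply, LinearMap.smul_apply, innerₗ_apply_apply, hc.2,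
      inner_neg_left, smul_eq_mul, smul_neg]
    rw [mul_neg, neg_smul, neg_neg, ← add_smul]
    have : 1 / (2 * P.m) * P.m + 1 / (2 * P.m) * P.m = 1 := by field_simp; norm_num
    rw [this, one_smul]
  · intro d hd
    rw [mem_insert, mem_singleton] at hd
    rw [mem_filter, Set.Finite.mem_toFinset]
    rcases hd with rfl | rfl
    · exact ⟨hc, hs⟩
    · exact ⟨P.C_neg hc, P.sim_trans hs (P.sim_neg_self hc.1)⟩

end Lvl

namespace Dbl

variable {P : Lvl E} {Q : Lvl E'} (D : Dbl P Q)

include D in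
theorem core [FiniteDimensional ℝ E] (hG : P.Good) (v : E' → E')
    (ht : ∀ x ∈ Q.C, inner ℝ (v x) x = 0)
    (hc : ∀ x ∈ Q.C, ∀ y ∈ Q.C, inner ℝ x y = Q.m / 2 →
      inner ℝ (v x) y + inner ℝ x (v y) = 0)
    (p q : E → E) (h1 : ∀ a ∈ P.C, v (D.J (P.lam a, 0)) = D.J (0, p a))
    (h2 : ∀ a ∈ P.C, v (D.J (0, P.lam a)) = D.J (q a, 0)) :
    ∃ A : E' →ₗ[ℝ] E', (∀ u w, inner ℝ (A u) w = - inner ℝ u (A w)) ∧ ∀ x ∈ Q.C, v x = A x := by
  have hm2 : Q.m / 2 = P.m := by rw [D.hm]; ring
  rw [hm2] at hc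
  have hodd : ∀ {x y : E'}, x ∈ Q.C → y ∈ Q.C → inner ℝ x y = P.m →
      inner ℝ x (v y) + inner ℝ x (v (-y)) = 0 := fun {x y} hx hy hxy =>
    Q.odd v ht (by rw [hm2]; exact hc) hx hy (by rw [hm2]; exact hxy)
  -- equality of vectors tested on a frame
  have ext : ∀ b ∈ P.C, ∀ u w : E, (∀ c ∈ P.C, P.sim b c → inner ℝ u c = inner ℝ w c) → u = w := by
    intro b hb u w h
    rw [← sub_eq_zero]
    refine hG.spF b hb _ fun c hc hs => ?_
    rw [inner_sub_left, h c hc hs, sub_self]
  have extN : ∀ b ∈ P.C, ∀ u w : E, (∀ a ∈ P.C, inner ℝ (P.lam a) b = P.m →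
      inner ℝ u (P.lam a) = inner ℝ w (P.lam a)) → u = w := by
    intro b hb u w h
    rw [← sub_eq_zero]
    refine hG.spN b hb _ fun a ha hs => ?_
    rw [inner_sub_left, h a ha hs, sub_self]
  -- oddness of p and q
  have hqodd : ∀ a ∈ P.C, q (-a) = - q a := by
    intro a ha
    rw [← sub_eq_zero, sub_neg_eq_add]
    refine hG.spF a ha _ fun b hb hs => ?_
    have e := hodd (D.C3 hb ha (P.sim_symm hs)) (D.C2 ha) (by
      rw [D.inn, inner_zero_right, zero_add, real_inner_comm, P.lam_self ha])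
    rw [D.Jneg, ← map_neg, neg_zero, h2 a ha, h2 _ (P.C_neg ha), D.inn, D.inn, inner_zero_right,
      add_zero, add_zero] at e
    rw [inner_add_left, real_inner_comm b, real_inner_comm b]
    linarith
  have hpodd : ∀ a ∈ P.C, p (-a) = - p a := by
    intro a ha
    rw [← sub_eq_zero, sub_neg_eq_add]
    refine hG.spF a ha _ fun b hb hs => ?_
    have e := hodd (D.C3 ha hb hs) (D.C1 ha) (by
      rw [D.inn, inner_zero_right, add_zero, real_inner_comm, P.lam_self ha])
    rw [D.Jneg, ← map_neg, neg_zero, h1 a ha, h1 _ (P.C_neg ha), D.inn, D.inn, inner_zero_right,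
      zero_add, zero_add] at e
    rw [inner_add_left, real_inner_comm b, real_inner_comm b]
    linarith
  -- the components on the third kind
  set r : E → E → E := fun b c => (D.J.symm (v (D.J (b, c)))).1 with hr
  set s : E → E → E := fun b c => (D.J.symm (v (D.J (b, c)))).2 with hs
  have hv : ∀ b c, v (D.J (b, c)) = D.J (r b c, s b c) := by
    intro b c
    rw [hr, hs]
    simp
  have EA : ∀ a ∈ P.C, ∀ b ∈ P.C, ∀ c ∈ P.C, P.sim b c → inner ℝ (P.lam a) b = P.m →
      inner ℝ (p a) c + inner ℝ (P.lam a) (r b c) = 0 := by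
    intro a ha b hb c hc' hbc hab
    have e := hc _ (D.C1 ha) _ (D.C3 hb hc' hbc) (by rw [D.inn, hab, inner_zero_left, add_zero])
    rw [h1 a ha, hv, D.inn, D.inn, inner_zero_left, inner_zero_left] at e
    linarith
  have EB : ∀ a ∈ P.C, ∀ b ∈ P.C, ∀ c ∈ P.C, P.sim b c → inner ℝ (P.lam a) c = P.m →
      inner ℝ (q a) b + inner ℝ (P.lam a) (s b c) = 0 := by
    intro a ha b hb c hc' hbc hac
    have e := hc _ (D.C2 ha) _ (D.C3 hb hc' hbc) (by rw [D.inn, hac, inner_zero_left, zero_add])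
    rw [h2 a ha, hv, D.inn, D.inn, inner_zero_left, inner_zero_left] at e
    linarith
  have T : ∀ b ∈ P.C, ∀ c ∈ P.C, P.sim b c → inner ℝ (r b c) b + inner ℝ (s b c) c = 0 := by
    intro b hb c hc' hbc
    have e := ht _ (D.C3 hb hc' hbc)
    rw [hv, D.inn] at e
    exact e
  have R1 : ∀ b ∈ P.C, ∀ c ∈ P.C, P.sim b c → r b (-c) = - r b c := by
    intro b hb c hc' hbc
    refine extN b hb _ _ fun a ha hab => ?_
    have e1 := EA a ha b hb c hc' hbc hab
    have e2 := EA a ha b hb (-c) (P.C_neg hc') (P.sim_neg_right hb.1 hbc) hab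
    rw [inner_neg_right] at e2
    rw [inner_neg_left, real_inner_comm (P.lam a), real_inner_comm (P.lam a)]
    linarith
  have S1 : ∀ b ∈ P.C, ∀ c ∈ P.C, P.sim b c → s (-b) c = - s b c := by
    intro b hb c hc' hbc
    refine extN c hc' _ _ fun a ha hac => ?_
    have e1 := EB a ha b hb c hc' hbc hac
    have e2 := EB a ha (-b) (P.C_neg hb) c hc' (P.sim_neg_left hc'.1 hbc) hac
    rw [inner_neg_right] at e2
    rw [inner_neg_left, real_inner_comm (P.lam a), real_inner_comm (P.lam a)]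
    linarith
  have R2 : ∀ b ∈ P.C, ∀ c ∈ P.C, P.sim b c → r (-b) c = r b c := by
    intro b hb c hc' hbc
    refine extN b hb _ _ fun a ha hab => ?_
    have e1 := EA a ha b hb c hc' hbc hab
    have e2 := EA (-a) (P.C_neg ha) (-b) (P.C_neg hb) c hc' (P.sim_neg_left hc'.1 hbc)
      (by rw [map_neg, inner_neg_neg, hab])
    rw [hpodd a ha, inner_neg_left, map_neg, inner_neg_left] at e2
    rw [real_inner_comm (P.lam a), real_inner_comm (P.lam a)]
    linarith
  have S2 : ∀ b ∈ P.C, ∀ c ∈ P.C, P.sim b c → s b (-c) = s b c := by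
    intro b hb c hc' hbc
    refine extN c hc' _ _ fun a ha hac => ?_
    have e1 := EB a ha b hb c hc' hbc hac
    have e2 := EB (-a) (P.C_neg ha) b hb (-c) (P.C_neg hc') (P.sim_neg_right hb.1 hbc)
      (by rw [map_neg, inner_neg_neg, hac])
    rw [hqodd a ha, inner_neg_left, map_neg, inner_neg_left] at e2
    rw [real_inner_comm (P.lam a), real_inner_comm (P.lam a)]
    linarith
  -- the second component depends on the first coordinate only
  have hS : ∀ b ∈ P.C, ∀ c ∈ P.C, P.sim b c → ∀ c' ∈ P.C, P.sim b c' →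
      inner ℝ (s b c') c = - inner ℝ (r b c) b := by
    intro b hb c hc' hbc c' hc'' hbc'
    have t := T b hb c hc' hbc
    rcases P.tri hc' hc'' (P.sim_trans (P.sim_symm hbc) hbc') with e | e | e
    · rw [e]; linarith
    · rw [e, S2 b hb c hc' hbc]; linarith
    · have e1 := hc _ (D.C3 hb hc' hbc) _ (D.C3 hb hc'' hbc') (by rw [D.inn, hb.2, e, add_zero])
      have e2 := hc _ (D.C3 hb hc' hbc) _ (D.C3 hb (P.C_neg hc'') (P.sim_neg_right hb.1 hbc'))
        (by rw [D.inn, hb.2, inner_neg_right, e, neg_zero, add_zero])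
      rw [hv, hv, D.inn, D.inn] at e1 e2
      rw [R1 b hb c' hc'' hbc', S2 b hb c' hc'' hbc', inner_neg_right, inner_neg_right] at e2
      rw [real_inner_comm c (s b c')]
      linarith
  have hS' : ∀ b ∈ P.C, ∀ c ∈ P.C, P.sim b c → s b c = s b b := by
    intro b hb c hc' hbc
    refine ext b hb _ _ fun d hd hbd => ?_
    rw [hS b hb d hd hbd c hc' hbc, hS b hb d hd hbd b hb (P.sim_refl b)]
  have hR : ∀ c ∈ P.C, ∀ b ∈ P.C, P.sim b c → ∀ b' ∈ P.C, P.sim b' c →
      inner ℝ (r b' c) b = - inner ℝ (s b c) c := by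
    intro c hc' b hb hbc b' hb' hbc'
    have t := T b hb c hc' hbc
    rcases P.tri hb hb' (P.sim_trans hbc (P.sim_symm hbc')) with e | e | e
    · rw [e]; linarith
    · rw [e, R2 b hb c hc' hbc]; linarith
    · have e1 := hc _ (D.C3 hb hc' hbc) _ (D.C3 hb' hc' hbc') (by rw [D.inn, hc'.2, e, zero_add])
      have e2 := hc _ (D.C3 hb hc' hbc) _ (D.C3 (P.C_neg hb') hc' (P.sim_neg_left hc'.1 hbc'))
        (by rw [D.inn, hc'.2, inner_neg_right, e, neg_zero, zero_add])
      rw [hv, hv, D.inn, D.inn] at e1 e2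
      rw [S1 b' hb' c hc' hbc', R2 b' hb' c hc' hbc', inner_neg_right, inner_neg_right] at e2
      rw [real_inner_comm b (r b' c)]
      linarith
  have hR' : ∀ b ∈ P.C, ∀ c ∈ P.C, P.sim b c → r b c = r c c := by
    intro b hb c hc' hbc
    refine ext c hc' _ _ fun d hd hcd => ?_
    rw [hR c hc' d hd (P.sim_symm hcd) b hb hbc, hR c hc' d hd (P.sim_symm hcd) c hc' (P.sim_refl c)]
  set R : E → E := fun c => r c c with hRdef
  set S : E → E := fun b => s b b with hSdef
  have hRo : ∀ c ∈ P.C, R (-c) = - R c := by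
    intro c hc'
    have e1 := hR' c hc' (-c) (P.C_neg hc') (P.sim_neg_self hc'.1)
    have e2 := R1 c hc' c hc' (P.sim_refl c)
    simp only [hRdef]
    rw [← e1, e2]
  have hRS : ∀ b ∈ P.C, ∀ c ∈ P.C, P.sim b c → inner ℝ (R c) b + inner ℝ (S b) c = 0 := by
    intro b hb c hc' hbc
    have t := T b hb c hc' hbc
    rw [hR' b hb c hc' hbc, hS' b hb c hc' hbc] at t
    exact t
  have EA' : ∀ a ∈ P.C, ∀ b ∈ P.C, ∀ c ∈ P.C, P.sim b c → inner ℝ (P.lam a) b = P.m →
      inner ℝ (p a) c + inner ℝ (P.lam a) (R c) = 0 := by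
    intro a ha b hb c hc' hbc hab
    have := EA a ha b hb c hc' hbc hab
    rwa [hR' b hb c hc' hbc] at this
  have EB' : ∀ a ∈ P.C, ∀ b ∈ P.C, ∀ c ∈ P.C, P.sim b c → inner ℝ (P.lam a) c = P.m →
      inner ℝ (q a) b + inner ℝ (P.lam a) (S b) = 0 := by
    intro a ha b hb c hc' hbc hac
    have := EB a ha b hb c hc' hbc hac
    rwa [hS' b hb c hc' hbc] at this
  -- the linear maps of the frames
  set rr := P.rl hG.fin R with hrr
  have hrl : ∀ x, ∀ c ∈ P.C, P.sim x c → rr x c = R c := fun x c hc' hs =>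
    P.rl_apply hG.fin R hRo x c hc' hs
  have hadj : ∀ a ∈ P.C, ∀ b ∈ P.C, ∀ x, P.sim x b → inner ℝ (P.lam a) b = P.m →
      p a = - (LinearMap.adjoint (rr x)) (P.lam a) := by
    intro a ha b hb x hxb hab
    refine ext b hb _ _ fun c hc' hbc => ?_
    have e := EA' a ha b hb c hc' hbc hab
    rw [inner_neg_left, LinearMap.adjoint_inner_left, hrl x c hc' (P.sim_trans hxb hbc)]
    linarith
  have hGeq : ∀ x ∈ P.C, ∀ y ∈ P.C, P.G x y → rr x = rr y := by
    intro x hx y hy hxy
    have hadjeq : LinearMap.adjoint (rr x) = LinearMap.adjoint (rr y) := by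
      have hz : ∀ z, LinearMap.adjoint (rr x) z = LinearMap.adjoint (rr y) z := by
        intro z
        have h3 : ∀ u : E, inner ℝ (rr x u - rr y u) z = 0 := by
          intro u
          have h4 : rr x u - rr y u = 0 := by
            apply P.lamc_eq_zero
            refine hG.spF x hx _ fun x' hx' hs' => ?_
            obtain ⟨y', hy', hsy, he⟩ := hxy x' hx' hs'
            have e1 := hadj x' hx' x' hx' x hs' (P.lam_self hx')
            have e2 := hadj x' hx' y' hy' y hsy he
            rw [e1, neg_inj] at e2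
            rw [P.lamc_adj, inner_sub_left, ← LinearMap.adjoint_inner_right,
              ← LinearMap.adjoint_inner_right, e2, sub_self]
          rw [h4, inner_zero_left]
        refine ext_inner_left ℝ fun u => ?_
        rw [LinearMap.adjoint_inner_right, LinearMap.adjoint_inner_right]
        have := h3 u
        rw [inner_sub_left] at this
        linarith
      exact LinearMap.ext hz
    exact LinearMap.adjoint.injective hadjeq
  obtain ⟨x0, hx0⟩ := hG.ne
  have hconst : ∀ x ∈ P.C, rr x = rr x0 := by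
    intro x hx
    have := hG.conn {x | rr x = rr x0} (fun x hx y hy hxy => by
      simp only [Set.mem_ofPred_eq]
      rw [hGeq x hx y hy hxy]) x0 hx0 x hx rfl
    exact this
  set R0 := rr x0 with hR0
  have hRlin : ∀ c ∈ P.C, R c = R0 c := by
    intro c hc'
    rw [← hconst c hc', hrl c c hc' (P.sim_refl c)]
  have hSlin : ∀ b ∈ P.C, S b = - LinearMap.adjoint R0 b := by
    intro b hb
    refine ext b hb _ _ fun c hc' hbc => ?_
    rw [inner_neg_left, LinearMap.adjoint_inner_left, ← hRlin c hc', real_inner_comm (R c) b]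
    have := hRS b hb c hc' hbc
    linarith
  have hplin : ∀ a ∈ P.C, p a = - LinearMap.adjoint R0 (P.lam a) := by
    intro a ha
    rw [← hconst a ha]
    exact hadj a ha a ha a (P.sim_refl a) (P.lam_self ha)
  have hqlin : ∀ a ∈ P.C, q a = R0 (P.lam a) := by
    intro a ha
    refine ext a ha _ _ fun b hb hab => ?_
    have e := EB' a ha b hb a ha (P.sim_symm hab) (P.lam_self ha)
    rw [hSlin b hb, inner_neg_right, LinearMap.adjoint_inner_right] at e
    linarith
  set A : E' →ₗ[ℝ] E' := D.cj ((R0 ∘ₗ LinearMap.snd ℝ E E).prod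
    (-(LinearMap.adjoint R0) ∘ₗ LinearMap.fst ℝ E E)) with hA
  have hAapp : ∀ x y, A (D.J (x, y)) = D.J (R0 y, - LinearMap.adjoint R0 x) := by
    intro x y
    rw [hA, cj_apply]; rfl
  refine ⟨A, fun u w => ?_, fun x hx => ?_⟩
  · obtain ⟨a, b, rfl⟩ := D.ex u
    obtain ⟨c, d, rfl⟩ := D.ex w
    rw [hAapp, hAapp, D.inn, D.inn, inner_neg_left, inner_neg_right,
      LinearMap.adjoint_inner_left, LinearMap.adjoint_inner_right]
    ring
  · rcases D.cases hx with ⟨a, ha, rfl⟩ | ⟨a, ha, rfl⟩ | ⟨b, hb, c, hc', hbc, rfl⟩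
    · rw [h1 a ha, hAapp, hplin a ha, map_zero]
    · rw [h2 a ha, hAapp, hqlin a ha, map_zero, neg_zero]
    · rw [hv, hAapp, hR' b hb c hc' hbc, hS' b hb c hc' hbc]
      have e1 := hRlin c hc'
      have e2 := hSlin b hb
      simp only [hRdef, hSdef] at e1 e2
      rw [e1, e2]

include D in
/-- The recursion step for first order rigidity. -/
theorem ir [FiniteDimensional ℝ E] (hG : P.Good) (hI : P.IR) : Q.IR := by
  intro v ht hc
  have hm2 : Q.m / 2 = P.m := by rw [D.hm]; ring
  have hvJ : ∀ x y, v (D.J (x, y)) =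
      D.J ((D.J.symm (v (D.J (x, y)))).1, (D.J.symm (v (D.J (x, y)))).2) := by
    intro x y; simp
  have half : ∀ x : E, (1 / 4 : ℝ) • P.lam ((2 : ℝ) • x) = (1 / 2 : ℝ) • P.lam x := by
    intro x; rw [map_smul, smul_smul]; norm_num
  have half2 : ∀ x : E, (1 / 2 : ℝ) • P.lam (P.lamc x) = x := by
    intro x; rw [P.lam_lamc, smul_smul]; norm_num
  have hskew : ∀ A0 : E →ₗ[ℝ] E, (∀ u w, inner ℝ (A0 u) w = - inner ℝ u (A0 w)) →
      ∀ u w, inner ℝ (((1 / 4 : ℝ) • (P.lam ∘ₗ A0 ∘ₗ P.lamc)) u) w =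
        - inner ℝ u (((1 / 4 : ℝ) • (P.lam ∘ₗ A0 ∘ₗ P.lamc)) w) := by
    intro A0 h u w
    simp only [LinearMap.smul_apply, LinearMap.comp_apply, inner_smul_left, inner_smul_right,
      conj_trivial]
    rw [P.lam_adj, h, P.lamc_adj]
    ring
  -- the first block
  obtain ⟨A1, hA1s, hA1⟩ : ∃ A1 : E →ₗ[ℝ] E, (∀ u w, inner ℝ (A1 u) w = - inner ℝ u (A1 w)) ∧
      ∀ a ∈ P.C, (D.J.symm (v (D.J (P.lam a, 0)))).1 = A1 (P.lam a) := by
    obtain ⟨A0, h0, h0'⟩ := hI (fun a => P.lamc (D.J.symm (v (D.J (P.lam a, 0)))).1)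
      (fun a ha => by
        have e := ht _ (D.C1 ha)
        rw [hvJ, D.inn, inner_zero_right, add_zero] at e
        show inner ℝ (P.lamc _) a = 0
        rw [P.lamc_adj]; exact e)
      (fun a ha b hb hab => by
        have e := hc _ (D.C1 ha) _ (D.C1 hb) (by
          rw [D.inn, P.lam_lam, hab, inner_zero_right, hm2]; ring)
        rw [hvJ, hvJ (P.lam b), D.inn, D.inn, inner_zero_right, inner_zero_left, add_zero,
          add_zero] at e
        show inner ℝ (P.lamc _) b + inner ℝ a (P.lamc _) = 0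
        rw [P.lamc_adj, ← P.lam_adj]; exact e)
    refine ⟨(1 / 4 : ℝ) • (P.lam ∘ₗ A0 ∘ₗ P.lamc), hskew A0 h0, fun a ha => ?_⟩
    have e := h0' a ha
    simp only [LinearMap.smul_apply, LinearMap.comp_apply]
    rw [P.lamc_lam, map_smul, half, ← e, half2]
  obtain ⟨A2, hA2s, hA2⟩ : ∃ A2 : E →ₗ[ℝ] E, (∀ u w, inner ℝ (A2 u) w = - inner ℝ u (A2 w)) ∧
      ∀ a ∈ P.C, (D.J.symm (v (D.J (0, P.lam a)))).2 = A2 (P.lam a) := by
    obtain ⟨A0, h0, h0'⟩ := hI (fun a => P.lamc (D.J.symm (v (D.J (0, P.lam a)))).2)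
      (fun a ha => by
        have e := ht _ (D.C2 ha)
        rw [hvJ, D.inn, inner_zero_right, zero_add] at e
        show inner ℝ (P.lamc _) a = 0
        rw [P.lamc_adj]; exact e)
      (fun a ha b hb hab => by
        have e := hc _ (D.C2 ha) _ (D.C2 hb) (by
          rw [D.inn, P.lam_lam, hab, inner_zero_right, hm2]; ring)
        rw [hvJ, hvJ 0 (P.lam b), D.inn, D.inn, inner_zero_right, inner_zero_left, zero_add,
          zero_add] at e
        show inner ℝ (P.lamc _) b + inner ℝ a (P.lamc _) = 0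
        rw [P.lamc_adj, ← P.lam_adj]; exact e)
    refine ⟨(1 / 4 : ℝ) • (P.lam ∘ₗ A0 ∘ₗ P.lamc), hskew A0 h0, fun a ha => ?_⟩
    have e := h0' a ha
    simp only [LinearMap.smul_apply, LinearMap.comp_apply]
    rw [P.lamc_lam, map_smul, half, ← e, half2]
  -- subtract the diagonal part
  set B := D.lift A1 A2 with hB
  have hBs : ∀ u w, inner ℝ (B u) w = - inner ℝ u (B w) := by
    intro u w
    obtain ⟨a, b, rfl⟩ := D.ex u
    obtain ⟨c, d, rfl⟩ := D.ex w
    rw [hB, lift_apply, lift_apply, D.inn, D.inn, hA1s, hA2s]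
    ring
  obtain ⟨A, hAs, hAv⟩ := D.core hG (fun x => v x - B x)
    (fun x hx => by
      have e := hBs x x
      rw [real_inner_comm (B x) x] at e
      show inner ℝ (v x - B x) x = 0
      rw [inner_sub_left, ht x hx]; linarith)
    (fun x hx y hy hxy => by
      have e := hc x hx y hy hxy
      have e' := hBs x y
      show inner ℝ (v x - B x) y + inner ℝ x (v y - B y) = 0
      rw [inner_sub_left, inner_sub_right]; linarith)
    (fun a => (D.J.symm (v (D.J (P.lam a, 0)))).2) (fun a => (D.J.symm (v (D.J (0, P.lam a)))).1)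
    (fun a ha => by
      show v _ - B _ = _
      rw [hvJ, hB, lift_apply, D.Jsub, hA1 a ha, map_zero, sub_self, sub_zero,
        D.J.symm_apply_apply])
    (fun a ha => by
      show v _ - B _ = _
      rw [hvJ, hB, lift_apply, D.Jsub, hA2 a ha, map_zero, sub_self, sub_zero,
        D.J.symm_apply_apply])
  refine ⟨A + B, fun u w => ?_, fun x hx => ?_⟩
  · rw [LinearMap.add_apply, LinearMap.add_apply, inner_add_left, inner_add_right, hAs, hBs]
    ring
  · have := hAv x hx
    rw [LinearMap.add_apply, ← this, sub_add_cancel]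

end Dbl

end Q184.BW
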