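import Pool.Agent.Q184.BW.Lvl

/-!
# The doubling of a lattice
-/

set_option autoImplicit false

namespace Q184.BW

variable {E E' : Type*} [NormedAddCommGroup E] [InnerProductSpace ℝ E]
  [NormedAddCommGroup E'] [InnerProductSpace ℝ E']

/-- `Q` is the doubling of `P`: pairs of members of the lattice congruent modulo `1 + i`. -/
structure Dbl (P : Lvl E) (Q : Lvl E') where
  J : (E × E) ≃ₗ[ℝ] E'
  inn : ∀ a b c d, inner ℝ (J (a, b)) (J (c, d)) = inner ℝ a c + inner ℝ b d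
  JI : ∀ a b, Q.I (J (a, b)) = J (P.I a, P.I b)
  mem : ∀ a b, J (a, b) ∈ Q.L ↔ a ∈ P.L ∧ ∃ l ∈ P.L, b = a + P.lam l
  hm : Q.m = 2 * P.m

namespace Dbl

variable {P : Lvl E} {Q : Lvl E'} (D : Dbl P Q)

theorem ex (x : E') : ∃ a b, x = D.J (a, b) := by
  obtain ⟨⟨a, b⟩, rfl⟩ := D.J.surjective x
  exact ⟨a, b, rfl⟩

theorem Jadd (a b c d : E) : D.J (a, b) + D.J (c, d) = D.J (a + c, b + d) := by
  rw [← map_add, Prod.mk_add_mk]

theorem Jneg (a b : E) : - D.J (a, b) = D.J (-a, -b) := by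
  rw [← map_neg, Prod.neg_mk]

theorem Jsub (a b c d : E) : D.J (a, b) - D.J (c, d) = D.J (a - c, b - d) := by
  rw [← map_sub, Prod.mk_sub_mk]

theorem Jinj {a b c d : E} (h : D.J (a, b) = D.J (c, d)) : a = c ∧ b = d := by
  have := D.J.injective h
  rw [Prod.mk.injEq] at this
  exact this

theorem Jlam (a b : E) : Q.lam (D.J (a, b)) = D.J (P.lam a, P.lam b) := by
  rw [Lvl.lam_apply, D.JI, D.Jadd]; rfl

theorem sim_iff (a b c d : E) : Q.sim (D.J (a, b)) (D.J (c, d)) ↔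
    ∃ l ∈ P.L, ∃ k ∈ P.L, c = a + P.lam l ∧ d = b + P.lam (l + P.lam k) := by
  constructor
  · rintro ⟨x, hx, he⟩
    obtain ⟨l, l', rfl⟩ := D.ex x
    rw [D.mem] at hx
    obtain ⟨hl, k, hk, rfl⟩ := hx
    rw [D.Jlam, D.Jadd] at he
    obtain ⟨h1, h2⟩ := D.Jinj he
    exact ⟨l, hl, k, hk, h1, h2⟩
  · rintro ⟨l, hl, k, hk, rfl, rfl⟩
    refine ⟨D.J (l, l + P.lam k), (D.mem _ _).mpr ⟨hl, k, hk, rfl⟩, ?_⟩
    rw [D.Jlam, D.Jadd]

theorem C1 {a : E} (ha : a ∈ P.C) : D.J (P.lam a, 0) ∈ Q.C := by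
  refine ⟨(D.mem _ _).mpr ⟨P.lam_mem ha.1, -a, P.L.neg_mem ha.1, by rw [map_neg]; abel⟩, ?_⟩
  rw [D.inn, P.lam_lam, ha.2, inner_zero_left, D.hm, add_zero]

theorem C2 {a : E} (ha : a ∈ P.C) : D.J (0, P.lam a) ∈ Q.C := by
  refine ⟨(D.mem _ _).mpr ⟨P.L.zero_mem, a, ha.1, by rw [zero_add]⟩, ?_⟩
  rw [D.inn, P.lam_lam, ha.2, inner_zero_left, D.hm, zero_add]

theorem C3 {b c : E} (hb : b ∈ P.C) (hc : c ∈ P.C) (h : P.sim b c) : D.J (b, c) ∈ Q.C := by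
  refine ⟨(D.mem _ _).mpr ⟨hb.1, h⟩, ?_⟩
  rw [D.inn, hb.2, hc.2, D.hm]; ring

/-- The three kinds of shell vectors. -/
theorem cases {x : E'} (hx : x ∈ Q.C) : (∃ a ∈ P.C, x = D.J (P.lam a, 0)) ∨
    (∃ a ∈ P.C, x = D.J (0, P.lam a)) ∨
    ∃ b ∈ P.C, ∃ c ∈ P.C, P.sim b c ∧ x = D.J (b, c) := by
  obtain ⟨a, b, rfl⟩ := D.ex x
  obtain ⟨h1, h2⟩ := hx
  rw [D.mem] at h1
  obtain ⟨ha, l, hl, hb⟩ := h1
  have hbL : b ∈ P.L := by rw [hb]; exact P.L.add_mem ha (P.lam_mem hl)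
  rw [D.inn, D.hm] at h2
  by_cases ha0 : a = 0
  · right; left
    subst ha0
    rw [zero_add] at hb
    refine ⟨l, ⟨hl, ?_⟩, by rw [hb]⟩
    rw [inner_zero_left, hb, P.lam_lam] at h2
    linarith
  · by_cases hb0 : b = 0
    · left
      subst hb0
      have h3 : a = P.lam (-l) := by
        rw [map_neg]
        exact eq_neg_of_add_eq_zero_left hb.symm
      refine ⟨-l, ⟨P.L.neg_mem hl, ?_⟩, by rw [← h3]⟩
      rw [inner_zero_left, h3, P.lam_lam] at h2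
      linarith
    · right; right
      have h3 := P.min a ha ha0
      have h4 := P.min b hbL hb0
      exact ⟨a, ⟨ha, by linarith⟩, b, ⟨hbL, by linarith⟩, ⟨l, hl, hb⟩, rfl⟩

theorem F1 {a : E} (ha : a ∈ P.C) {x : E'} (hx : x ∈ Q.C)
    (h : Q.sim (D.J (P.lam a, 0)) x) :
    ∃ a' ∈ P.C, P.sim a a' ∧ (x = D.J (P.lam a', 0) ∨ x = D.J (0, P.lam a')) := by
  rcases D.cases hx with ⟨a', ha', rfl⟩ | ⟨a', ha', rfl⟩ | ⟨b, hb, c, hc, hbc, rfl⟩
  · obtain ⟨l, hl, k, hk, e1, e2⟩ := (D.sim_iff _ _ _ _).mp h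
    rw [← map_add] at e1
    have h1 := P.lam_inj e1
    rw [zero_add] at e2
    have h2 := P.lam_eq_zero e2.symm
    refine ⟨a', ha', ⟨-k, P.L.neg_mem hk, ?_⟩, Or.inl rfl⟩
    rw [h1, map_neg, eq_neg_of_add_eq_zero_left h2]
  · obtain ⟨l, hl, k, hk, e1, e2⟩ := (D.sim_iff _ _ _ _).mp h
    rw [← map_add] at e1
    have h1 := P.lam_eq_zero e1.symm
    rw [zero_add] at e2
    have h2 := P.lam_inj e2
    refine ⟨a', ha', ⟨k - P.lamc a, P.L.sub_mem hk (P.lamc_mem ha.1), ?_⟩, Or.inr rfl⟩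
    rw [h2, map_sub, P.lam_lamc, two_smul, eq_neg_of_add_eq_zero_right h1]
    abel
  · exfalso
    obtain ⟨l, hl, k, hk, e1, e2⟩ := (D.sim_iff _ _ _ _).mp h
    rw [← map_add] at e1
    exact P.not_lam hb (P.L.add_mem ha.1 hl) e1

theorem sim11 {a a' : E} (h : P.sim a a') : Q.sim (D.J (P.lam a, 0)) (D.J (P.lam a', 0)) := by
  obtain ⟨l, hl, rfl⟩ := h
  refine (D.sim_iff _ _ _ _).mpr ⟨P.lam l, P.lam_mem hl, -l, P.L.neg_mem hl, ?_, ?_⟩
  · rw [map_add]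
  · rw [map_neg, add_neg_cancel, map_zero, add_zero]

theorem sim12 {a a' : E} (ha : a ∈ P.L) (h : P.sim a a') :
    Q.sim (D.J (P.lam a, 0)) (D.J (0, P.lam a')) := by
  obtain ⟨l, hl, rfl⟩ := h
  refine (D.sim_iff _ _ _ _).mpr ⟨-a, P.L.neg_mem ha, l + P.lamc a,
    P.L.add_mem hl (P.lamc_mem ha), ?_, ?_⟩
  · rw [map_neg, add_neg_cancel]
  · rw [zero_add]
    congr 1
    rw [map_add, P.lam_lamc, two_smul]
    abel

theorem F3 {b c : E} (hb : b ∈ P.C) {x : E'} (hx : x ∈ Q.C) (h : Q.sim (D.J (b, c)) x) :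
    ∃ b' ∈ P.C, ∃ c' ∈ P.C, P.sim b b' ∧ P.sim b' c' ∧ x = D.J (b', c') := by
  rcases D.cases hx with ⟨a', ha', rfl⟩ | ⟨a', ha', rfl⟩ | ⟨b', hb', c', hc', hbc, rfl⟩
  · exfalso
    obtain ⟨l, hl, k, hk, e1, e2⟩ := (D.sim_iff _ _ _ _).mp h
    refine P.not_lam hb (P.L.sub_mem ha'.1 hl) ?_
    rw [map_sub, e1]; abel
  · exfalso
    obtain ⟨l, hl, k, hk, e1, e2⟩ := (D.sim_iff _ _ _ _).mp h
    refine P.not_lam hb (P.L.neg_mem hl) ?_
    rw [map_neg]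
    exact eq_neg_of_add_eq_zero_left e1.symm
  · obtain ⟨l, hl, k, hk, e1, e2⟩ := (D.sim_iff _ _ _ _).mp h
    exact ⟨b', hb', c', hc', ⟨l, hl, e1⟩, hbc, rfl⟩

/-- The map acting on pairs by `T`. -/
def cj (T : (E × E) →ₗ[ℝ] (E × E)) : E' →ₗ[ℝ] E' :=
  D.J.toLinearMap ∘ₗ T ∘ₗ D.J.symm.toLinearMap

theorem cj_apply (T : (E × E) →ₗ[ℝ] (E × E)) (a b : E) : D.cj T (D.J (a, b)) = D.J (T (a, b)) := by
  simp [cj]

/-- The swap. -/
def sw : E' →ₗ[ℝ] E' := D.cj ((LinearMap.snd ℝ E E).prod (LinearMap.fst ℝ E E))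

theorem sw_apply (a b : E) : D.sw (D.J (a, b)) = D.J (b, a) := by
  rw [sw, cj_apply]; rfl

/-- Two maps acting on the two coordinates. -/
def lift (g k : E →ₗ[ℝ] E) : E' →ₗ[ℝ] E' := D.cj (g.prodMap k)

theorem lift_apply (g k : E →ₗ[ℝ] E) (a b : E) : D.lift g k (D.J (a, b)) = D.J (g a, k b) := by
  rw [lift, cj_apply]; rfl

theorem sw_gm : Q.Gm D.sw := by
  refine ⟨fun x y => ?_, fun x => ?_, fun x hx => ?_⟩
  · obtain ⟨a, b, rfl⟩ := D.ex x
    obtain ⟨c, d, rfl⟩ := D.ex y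
    rw [sw_apply, sw_apply, D.inn, D.inn, add_comm]
  · obtain ⟨a, b, rfl⟩ := D.ex x
    rw [D.JI, sw_apply, sw_apply, D.JI]
  · obtain ⟨a, b, rfl⟩ := D.ex x
    rw [D.mem] at hx
    obtain ⟨ha, k, hk, rfl⟩ := hx
    rw [sw_apply, sim_iff]
    refine ⟨k, hk, -P.lamc k, P.L.neg_mem (P.lamc_mem hk), rfl, ?_⟩
    rw [map_add, map_neg, P.lam_lamc, map_neg, map_smul, two_smul]
    abel

theorem lift_gm {g : E →ₗ[ℝ] E} (hg : P.Gm g) : Q.Gm (D.lift g g) := by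
  refine ⟨fun x y => ?_, fun x => ?_, fun x hx => ?_⟩
  · obtain ⟨a, b, rfl⟩ := D.ex x
    obtain ⟨c, d, rfl⟩ := D.ex y
    rw [lift_apply, lift_apply, D.inn, D.inn, hg.inn, hg.inn]
  · obtain ⟨a, b, rfl⟩ := D.ex x
    rw [D.JI, lift_apply, lift_apply, D.JI, hg.I, hg.I]
  · obtain ⟨a, b, rfl⟩ := D.ex x
    rw [D.mem] at hx
    obtain ⟨ha, k, hk, rfl⟩ := hx
    rw [lift_apply, sim_iff]
    obtain ⟨l, hl, h1⟩ := hg.cong a ha
    obtain ⟨l2, hl2, h2⟩ := hg.cong k hk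
    refine ⟨l, hl, l2, hl2, h1, ?_⟩
    rw [map_add, hg.au.lam, h1, h2, map_add, map_add]
    abel

theorem z_gm : Q.Gm (D.lift LinearMap.id (-LinearMap.id)) := by
  refine ⟨fun x y => ?_, fun x => ?_, fun x hx => ?_⟩
  · obtain ⟨a, b, rfl⟩ := D.ex x
    obtain ⟨c, d, rfl⟩ := D.ex y
    rw [lift_apply, lift_apply, D.inn, D.inn]
    simp
  · obtain ⟨a, b, rfl⟩ := D.ex x
    rw [D.JI, lift_apply, lift_apply, D.JI]
    simp
  · obtain ⟨a, b, rfl⟩ := D.ex x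
    have hx' := hx
    rw [D.mem] at hx
    obtain ⟨ha, k, hk, hb⟩ := hx
    have hbL : b ∈ P.L := by rw [hb]; exact P.L.add_mem ha (P.lam_mem hk)
    rw [lift_apply, sim_iff]
    refine ⟨0, P.L.zero_mem, P.I b, P.LI b hbL, by simp, ?_⟩
    rw [zero_add, P.lam_sq, P.II]
    simp only [LinearMap.neg_apply, LinearMap.id_apply, smul_neg, two_smul]
    abel

include D in
theorem tr (h : P.Tr) : Q.Tr := by
  -- vectors of the first two kinds
  have key : ∀ a ∈ P.C, ∀ y ∈ Q.C, Q.sim (D.J (P.lam a, 0)) y →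
      ∃ g : E' →ₗ[ℝ] E', Q.Gm g ∧ g (D.J (P.lam a, 0)) = y := by
    intro a ha y hy hs
    obtain ⟨a', ha', hsa, hy'⟩ := D.F1 ha hy hs
    obtain ⟨g, hg, hga⟩ := h a ha a' ha' hsa
    rcases hy' with rfl | rfl
    · refine ⟨D.lift g g, D.lift_gm hg, ?_⟩
      rw [lift_apply, hg.au.lam, hga, map_zero]
    · refine ⟨D.sw ∘ₗ D.lift g g, D.sw_gm.comp (D.lift_gm hg), ?_⟩
      rw [LinearMap.comp_apply, lift_apply, sw_apply, hg.au.lam, hga, map_zero]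
  intro x hx y hy hs
  rcases D.cases hx with ⟨a, ha, rfl⟩ | ⟨a, ha, rfl⟩ | ⟨b, hb, c, hc, hbc, rfl⟩
  · exact key a ha y hy hs
  · obtain ⟨g, hg, he⟩ := key a ha y hy (Q.sim_trans (D.sim12 ha.1 (P.sim_refl a)) hs)
    refine ⟨g ∘ₗ D.sw, hg.comp D.sw_gm, ?_⟩
    rw [LinearMap.comp_apply, sw_apply, he]
  · obtain ⟨b', hb', c', hc', hbb', hbc', rfl⟩ := D.F3 hb hy hs
    obtain ⟨g, hg, hgb⟩ := h b hb b' hb' hbb'
    have hG := D.lift_gm hg
    have h1 := hG.cong _ (D.C3 hb hc hbc).1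
    rw [lift_apply, hgb] at h1
    obtain ⟨l, hl, k, hk, e1, e2⟩ := (D.sim_iff _ _ _ _).mp h1
    obtain ⟨l', hl', k', hk', e1', e2'⟩ := (D.sim_iff _ _ _ _).mp hs
    have hll : l' = l := by
      apply P.lam_inj
      rw [e1] at e1'
      exact (add_left_cancel e1').symm
    subst hll
    have e3 : g c - c' = P.lam (P.lam (k - k')) := by
      rw [e2, e2', map_add, map_add, map_sub, map_sub]
      abel
    have hgc : g c ∈ P.C := hg.au.C hc
    have hcase : c' = g c ∨ c' = -g c := by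
      by_cases hk0 : k - k' = 0
      · left
        rw [hk0, map_zero, map_zero, sub_eq_zero] at e3
        exact e3.symm
      · right
        have h2 := P.min (k - k') (P.L.sub_mem hk hk') hk0
        have h3 : inner ℝ (g c - c') (g c - c') = 4 * inner ℝ (k - k') (k - k') := by
          rw [e3, P.lam_lam, P.lam_lam]; ring
        rw [inner_sub_left, inner_sub_right, inner_sub_right, hgc.2, hc'.2] at h3
        have h4 : inner ℝ c' (g c) = inner ℝ (g c) c' := real_inner_comm _ _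
        have h5 : inner ℝ (c' + g c) (c' + g c) ≤ 0 := by
          rw [inner_add_left, inner_add_right, inner_add_right, hgc.2, hc'.2]
          linarith
        have h6 := real_inner_self_nonpos.mp h5
        exact eq_neg_of_add_eq_zero_left h6
    rcases hcase with rfl | rfl
    · exact ⟨D.lift g g, hG, by rw [lift_apply, hgb]⟩
    · refine ⟨D.lift LinearMap.id (-LinearMap.id) ∘ₗ D.lift g g, D.z_gm.comp hG, ?_⟩
      rw [LinearMap.comp_apply, lift_apply, lift_apply, hgb]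
      simp

/-- The automorphism moving the first kind to the third kind. -/
theorem exS (h : P.Tr) {b c : E} (hb : b ∈ P.C) (hc : c ∈ P.C) (hbc : P.sim b c) :
    ∃ S : E' →ₗ[ℝ] E', Q.Au S ∧ S (D.J (P.lam (-P.I b), 0)) = D.J (b, c) := by
  obtain ⟨g, hg, hgb⟩ := h b hb c hc hbc
  set H : E' →ₗ[ℝ] E' := D.cj (((1 / 2 : ℝ) • (P.lam ∘ₗ (LinearMap.fst ℝ E E + LinearMap.snd ℝ E E))).prod
    ((1 / 2 : ℝ) • (P.lam ∘ₗ (LinearMap.fst ℝ E E - LinearMap.snd ℝ E E)))) with hH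
  have hHa : ∀ x y, H (D.J (x, y)) = D.J ((1 / 2 : ℝ) • P.lam (x + y), (1 / 2 : ℝ) • P.lam (x - y)) := by
    intro x y
    rw [hH, cj_apply]; rfl
  have hhalf : ∀ x : E, (1 / 2 : ℝ) • ((2 : ℝ) • x) = x := by
    intro x; rw [smul_smul]; norm_num
  have hHAu : Q.Au H := by
    refine ⟨fun x y => ?_, fun x => ?_, fun x hx => ?_⟩
    · obtain ⟨a, b, rfl⟩ := D.ex x
      obtain ⟨c, d, rfl⟩ := D.ex y
      rw [hHa, hHa, D.inn, D.inn, inner_smul_left, inner_smul_right, inner_smul_left,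
        inner_smul_right, P.lam_lam, P.lam_lam, inner_add_left, inner_add_right, inner_add_right,
        inner_sub_left, inner_sub_right, inner_sub_right]
      simp only [conj_trivial]
      ring
    · obtain ⟨a, b, rfl⟩ := D.ex x
      rw [D.JI, hHa, hHa, D.JI]
      simp only [map_smul, ← map_add, ← map_sub, Lvl.lam_apply]
    · obtain ⟨a, b, rfl⟩ := D.ex x
      rw [D.mem] at hx
      obtain ⟨ha, k, hk, rfl⟩ := hx
      rw [hHa]
      have e1 : (1 / 2 : ℝ) • P.lam (a + (a + P.lam k)) = P.lam a + P.I k := by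
        rw [show a + (a + P.lam k) = (2 : ℝ) • a + P.lam k by rw [two_smul]; abel, map_add,
          map_smul, P.lam_sq, smul_add, hhalf, hhalf]
      have e2 : (1 / 2 : ℝ) • P.lam (a - (a + P.lam k)) = - P.I k := by
        rw [show a - (a + P.lam k) = - P.lam k by abel, map_neg, P.lam_sq, smul_neg, hhalf]
      rw [e1, e2, D.mem]
      refine ⟨P.L.add_mem (P.lam_mem ha) (P.LI k hk), -a - P.lamc (P.I k), P.L.sub_mem
        (P.L.neg_mem ha) (P.lamc_mem (P.LI k hk)), ?_⟩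
      rw [map_sub, map_neg, P.lam_lamc, two_smul]
      abel
  have hgAu : Q.Au (D.lift LinearMap.id g) := by
    refine ⟨fun x y => ?_, fun x => ?_, fun x hx => ?_⟩
    · obtain ⟨a, b, rfl⟩ := D.ex x
      obtain ⟨c, d, rfl⟩ := D.ex y
      rw [lift_apply, lift_apply, D.inn, D.inn, hg.inn]; rfl
    · obtain ⟨a, b, rfl⟩ := D.ex x
      rw [D.JI, lift_apply, lift_apply, D.JI, hg.I]; rfl
    · obtain ⟨a, b, rfl⟩ := D.ex x
      rw [D.mem] at hx
      obtain ⟨ha, k, hk, rfl⟩ := hx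
      rw [lift_apply, D.mem]
      refine ⟨ha, ?_⟩
      obtain ⟨l, hl, he⟩ := hg.cong _ (P.L.add_mem ha (P.lam_mem hk))
      refine ⟨k + l, P.L.add_mem hk hl, ?_⟩
      rw [he, map_add, LinearMap.id_apply]
      abel
  refine ⟨D.lift LinearMap.id g ∘ₗ H, ⟨fun x y => ?_, fun x => ?_, fun x hx => ?_⟩, ?_⟩
  · simp only [LinearMap.comp_apply]; rw [hgAu.inn, hHAu.inn]
  · simp only [LinearMap.comp_apply]; rw [hHAu.I, hgAu.I]
  · simp only [LinearMap.comp_apply]; exact hgAu.L _ (hHAu.L _ hx)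
  · have e : (1 / 2 : ℝ) • P.lam (P.lam (-P.I b)) = b := by
      rw [P.lam_sq, map_neg, P.II, neg_neg, hhalf]
    rw [LinearMap.comp_apply, hHa, add_zero, sub_zero, e, lift_apply, hgb]
    rfl

end Dbl

end Q184.BW
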