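import Mathlib

/-!
# Definitions: spherical codes, jamming, kissing configurations, Barnes-Wall lattices
-/

set_option autoImplicit false

namespace Q184.BW

section defs

variable {E : Type*} [NormedAddCommGroup E] [InnerProductSpace ℝ E]

/-- The nonzero vectors of least norm. -/
def minimalVectors (L : Set E) : Set E := {x | x ∈ L ∧ x ≠ 0 ∧ ∀ y ∈ L, y ≠ 0 → ‖x‖ ≤ ‖y‖}

/-- The kissing configuration: the nonzero vectors of least norm, rescaled to unit length. -/
def kissingConfiguration (L : Set E) : Set E := (fun x => ‖x‖⁻¹ • x) '' minimalVectors L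

/-- `θ` is the smallest angle between two distinct points of `C`. -/
def IsMinimalAngle (C : Set E) (θ : ℝ) : Prop :=
  IsLeast {α | ∃ x ∈ C, ∃ y ∈ C, x ≠ y ∧ α = InnerProductGeometry.angle x y} θ

/-- A motion of the code `C` with minimal angle `θ`. -/
structure IsMotion (C : Set E) (θ : ℝ) (γ : C → unitInterval → E) : Prop where
  continuous : ∀ x, Continuous (γ x)
  start : ∀ x, γ x 0 = x
  unit : ∀ x t, ‖γ x t‖ = 1
  separated : ∀ x y, x ≠ y → ∀ t, inner ℝ (γ x t) (γ y t) ≤ Real.cos θ

/-- The motion is given by orthogonal maps. -/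
def IsTrivialMotion (C : Set E) (γ : C → unitInterval → E) : Prop :=
  ∃ g : unitInterval → (E ≃ₗᵢ[ℝ] E), ∀ t x, γ x t = g t x

/-- `C` is a spherical code (a finite set of unit vectors) with a minimal angle, and all its
motions are trivial. -/
def IsJammedCode (C : Set E) : Prop :=
  C.Finite ∧ (∀ x ∈ C, ‖x‖ = 1) ∧
    ∃ θ, IsMinimalAngle C θ ∧ ∀ γ, IsMotion C θ γ → IsTrivialMotion C γ

end defs

open Complex

/-- The space of functions on `{0,1}^d` with complex values. -/
abbrev Sp (d : ℕ) : Type := EuclideanSpace ℂ (Fin d → Fin 2)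

/-- The matrix `M`. -/
noncomputable def matM : Matrix (Fin 2) (Fin 2) ℂ := !![1, 1; 0, 1 + I]

/-- The rows of the Kronecker power of `M`. -/
noncomputable def row (d : ℕ) (s : Fin d → Fin 2) : Sp d :=
  WithLp.toLp 2 fun t => ∏ j, matM (s j) (t j)

/-- The combination of the rows with given Gaussian integers as coefficients. -/
noncomputable def comb (d : ℕ) (z : (Fin d → Fin 2) → GaussianInt) : Sp d :=
  ∑ s, (GaussianInt.toComplex (z s)) • row d s

/-- The lattice spanned by the rows. -/
def rowLattice (d : ℕ) : Set (Sp d) := Set.range (comb d)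

/-- The Barnes-Wall lattice of real dimension `2 ^ k`: the combinations, with Gaussian integers as
coefficients, of the rows of the Kronecker power of `M` with exponent `k - 1`. -/
def barnesWall (k : ℕ) : Set (Sp (k - 1)) := rowLattice (k - 1)

end Q184.BW
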