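import Pool.Agent.Q184.BW.Dbl

/-!
# The good properties pass to the doubling
-/

set_option autoImplicit false

namespace Q184.BW.Dbl

variable {E E' : Type*} [NormedAddCommGroup E] [InnerProductSpace ℝ E]
  [NormedAddCommGroup E'] [InnerProductSpace ℝ E']

variable {P : Lvl E} {Q : Lvl E'} (D : Dbl P Q)

include D

theorem fin (h : P.C.Finite) : Q.C.Finite := by
  have h1 : Q.C ⊆ ((fun a => D.J (P.lam a, 0)) '' P.C) ∪ ((fun a => D.J (0, P.lam a)) '' P.C) ∪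
      ((fun a : E × E => D.J (a.1, a.2)) '' (P.C ×ˢ P.C)) := by
    intro x hx
    rcases D.cases hx with ⟨a, ha, rfl⟩ | ⟨a, ha, rfl⟩ | ⟨b, hb, c, hc, hbc, rfl⟩
    · exact Or.inl (Or.inl ⟨a, ha, rfl⟩)
    · exact Or.inl (Or.inr ⟨a, ha, rfl⟩)
    · exact Or.inr ⟨(b, c), ⟨hb, hc⟩, rfl⟩
  exact (((h.image _).union (h.image _)).union ((h.prod h).image _)).subset h1

theorem all_of_first (R : E' → Prop) (htr : P.Tr)
    (hAu : ∀ (g : E' →ₗ[ℝ] E') (x : E'), Q.Au g → R x → R (g x))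
    (h1 : ∀ a ∈ P.C, R (D.J (P.lam a, 0))) : ∀ x ∈ Q.C, R x := by
  intro x hx
  rcases D.cases hx with ⟨a, ha, rfl⟩ | ⟨a, ha, rfl⟩ | ⟨b, hb, c, hc, hbc, rfl⟩
  · exact h1 a ha
  · have := hAu D.sw _ D.sw_gm.au (h1 a ha)
    rwa [D.sw_apply] at this
  · obtain ⟨S, hS, he⟩ := D.exS htr hb hc hbc
    rw [← he]
    exact hAu S _ hS (h1 _ (P.C_neg (P.C_I hb)))

theorem spF [FiniteDimensional ℝ E'] (htr : P.Tr) (h : ∀ b ∈ P.C, P.SpF b) :
    ∀ b ∈ Q.C, Q.SpF b := by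
  refine D.all_of_first Q.SpF htr (fun g x hg hx => hg.spF hx) ?_
  intro a ha w hw
  obtain ⟨u, t, rfl⟩ := D.ex w
  have hu : u = 0 := by
    apply P.lamc_eq_zero
    refine h a ha _ fun c hc hs => ?_
    have h1 := hw _ (D.C1 hc) (D.sim11 hs)
    rw [D.inn, inner_zero_right, add_zero] at h1
    rw [P.lamc_adj]; exact h1
  have ht : t = 0 := by
    apply P.lamc_eq_zero
    refine h a ha _ fun c hc hs => ?_
    have h1 := hw _ (D.C2 hc) (D.sim12 ha.1 hs)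
    rw [D.inn, inner_zero_right, zero_add] at h1
    rw [P.lamc_adj]; exact h1
  rw [hu, ht, Prod.mk_zero_zero, map_zero]

theorem spN [FiniteDimensional ℝ E'] (htr : P.Tr) (hF : ∀ b ∈ P.C, P.SpF b)
    (h : ∀ b ∈ P.C, P.SpN b) : ∀ b ∈ Q.C, Q.SpN b := by
  refine D.all_of_first Q.SpN htr (fun g x hg hx => hg.spN hx) ?_
  intro a ha w hw
  obtain ⟨u, t, rfl⟩ := D.ex w
  have hu : u = 0 := by
    apply P.lamc_eq_zero
    refine h a ha _ fun c hc hs => ?_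
    have h1 := hw _ (D.C1 hc) (by
      rw [D.Jlam, D.inn, P.lam_lam, hs, inner_zero_right, D.hm, add_zero])
    rw [D.Jlam, D.inn, map_zero, inner_zero_right, add_zero] at h1
    rw [P.lamc_adj]; exact h1
  have ht : t = 0 := by
    apply P.lamc_eq_zero
    refine hF a ha _ fun c hc hs => ?_
    have h1 := hw _ (D.C3 ha hc hs) (by
      rw [D.Jlam, D.inn, P.lam_lam, ha.2, inner_zero_right, D.hm, add_zero])
    rw [D.Jlam, D.inn, hu, inner_zero_left, zero_add] at h1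
    rw [P.lamc_adj]; exact h1
  rw [hu, ht, Prod.mk_zero_zero, map_zero]

theorem G11 {a b : E} (ha : a ∈ P.C) (h : P.G a b) (hbL : b ∈ P.L) :
    Q.G (D.J (P.lam a, 0)) (D.J (P.lam b, 0)) := by
  intro x hx hs
  obtain ⟨a', ha', hsa, hx'⟩ := D.F1 ha hx hs
  obtain ⟨b', hb', hsb, he⟩ := h a' ha' hsa
  rcases hx' with rfl | rfl
  · refine ⟨D.J (P.lam b', 0), D.C1 hb', D.sim11 hsb, ?_⟩
    rw [D.Jlam, D.inn, P.lam_lam, he, inner_zero_right, D.hm, add_zero]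
  · refine ⟨D.J (0, P.lam b'), D.C2 hb', D.sim12 hbL hsb, ?_⟩
    rw [D.Jlam, D.inn, P.lam_lam, he, inner_zero_right, D.hm, zero_add]

theorem G31 {b c : E} (hb : b ∈ P.C) : Q.G (D.J (b, c)) (D.J (P.lam b, 0)) := by
  intro x hx hs
  obtain ⟨b', hb', c', hc', hbb', hbc', rfl⟩ := D.F3 hb hx hs
  refine ⟨D.J (P.lam b', 0), D.C1 hb', D.sim11 hbb', ?_⟩
  rw [D.Jlam, D.inn, P.lam_lam, hb'.2, inner_zero_right, D.hm, add_zero]

theorem conn (h : P.Conn) : Q.Conn := by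
  intro S hS x hx y hy hxS
  have key : ∀ x ∈ Q.C, ∃ a ∈ P.C, (x ∈ S ↔ D.J (P.lam a, 0) ∈ S) := by
    intro x hx
    rcases D.cases hx with ⟨a, ha, rfl⟩ | ⟨a, ha, rfl⟩ | ⟨b, hb, c, hc, hbc, rfl⟩
    · exact ⟨a, ha, Iff.rfl⟩
    · exact ⟨a, ha, hS _ (D.C2 ha) _ (D.C1 ha)
        (Q.G_of_sim (Q.sim_symm (D.sim12 ha.1 (P.sim_refl a))))⟩
    · exact ⟨b, hb, hS _ (D.C3 hb hc hbc) _ (D.C1 hb) (D.G31 hb)⟩
  obtain ⟨a, ha, hxa⟩ := key x hx
  obtain ⟨b, hb, hyb⟩ := key y hy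
  rw [hyb]
  have := h {a | D.J (P.lam a, 0) ∈ S} (fun a ha b hb hG =>
    hS _ (D.C1 ha) _ (D.C1 hb) (D.G11 ha hG hb.1)) a ha b hb
  exact this (hxa.mp hxS)

theorem good [FiniteDimensional ℝ E'] (h : P.Good) : Q.Good := by
  refine ⟨D.fin h.fin, ?_, D.spF h.tr h.spF, D.spN h.tr h.spF h.spN, D.tr h.tr, D.conn h.conn⟩
  obtain ⟨a, ha⟩ := h.ne
  exact ⟨_, D.C1 ha⟩

end Q184.BW.Dbl
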