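import Pool.Agent.Q184.BW.Stress

/-!
# The Barnes-Wall lattices
-/

set_option autoImplicit false

namespace Q184.BW

open Complex

theorem comb_apply (d : ℕ) (z : (Fin d → Fin 2) → GaussianInt) (t : Fin d → Fin 2) :
    comb d z t = ∑ s, GaussianInt.toComplex (z s) * ∏ j, matM (s j) (t j) := by
  simp [comb, row]

theorem comb_add (d : ℕ) (z w : (Fin d → Fin 2) → GaussianInt) :
    comb d (z + w) = comb d z + comb d w := by
  simp [comb, add_smul, Finset.sum_add_distrib]

theorem comb_neg (d : ℕ) (z : (Fin d → Fin 2) → GaussianInt) :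
    comb d (-z) = - comb d z := by
  simp [comb]

theorem comb_zero (d : ℕ) : comb d 0 = 0 := by
  simp [comb]

theorem comb_I (d : ℕ) (z : (Fin d → Fin 2) → GaussianInt) :
    comb d (fun s => ⟨0, 1⟩ * z s) = I • comb d z := by
  rw [comb, comb, Finset.smul_sum]
  refine Finset.sum_congr rfl fun s _ => ?_
  rw [map_mul, smul_smul]
  congr 2
  simp [GaussianInt.toComplex_def]

/-- The lattice as an additive subgroup. -/
def grp (d : ℕ) : AddSubgroup (Sp d) where
  carrier := rowLattice d
  add_mem' := by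
    rintro _ _ ⟨z, rfl⟩ ⟨w, rfl⟩
    exact ⟨z + w, comb_add d z w⟩
  zero_mem' := ⟨0, comb_zero d⟩
  neg_mem' := by
    rintro _ ⟨z, rfl⟩
    exact ⟨-z, comb_neg d z⟩

/-- Multiplication by `i`. -/
noncomputable def mI (d : ℕ) : Sp d →ₗ[ℝ] Sp d :=
  (LinearMap.lsmul ℂ (Sp d) I).restrictScalars ℝ

theorem mI_apply (d : ℕ) (x : Sp d) : mI d x = I • x := rfl

theorem inner_mI (d : ℕ) (x y : Sp d) : inner ℝ (mI d x) (mI d y) = inner ℝ x y := by
  rw [PiLp.inner_apply, PiLp.inner_apply]
  refine Finset.sum_congr rfl fun t _ => ?_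
  simp only [mI_apply, PiLp.smul_apply, smul_eq_mul, Complex.inner]
  simp

/-- The pair of functions defined by the first coordinate. -/
noncomputable def Jd (d : ℕ) : (Sp d × Sp d) ≃ₗ[ℝ] Sp (d + 1) where
  toFun p := WithLp.toLp 2 fun t => if t 0 = 0 then p.1 (Fin.tail t) else p.2 (Fin.tail t)
  map_add' p q := by
    ext t
    by_cases h : t 0 = 0 <;> simp [h]
  map_smul' c p := by
    ext t
    by_cases h : t 0 = 0 <;> simp [h]
  invFun x := (WithLp.toLp 2 fun t => x (Fin.cons 0 t), WithLp.toLp 2 fun t => x (Fin.cons 1 t))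
  left_inv p := by
    ext t <;> simp
  right_inv x := by
    ext t
    by_cases h : t 0 = 0
    · simp only [h, if_true]
      rw [← h, Fin.cons_self_tail]
    · have h1 : t 0 = 1 := by
        rcases Fin.exists_fin_two.mp ⟨t 0, rfl⟩ with h2 | h2
        · exact absurd h2 h
        · exact h2
      simp only [h, if_false]
      rw [← h1, Fin.cons_self_tail]

theorem Jd_zero (d : ℕ) (a b : Sp d) (t : Fin d → Fin 2) :
    Jd d (a, b) (Fin.cons 0 t : Fin (d + 1) → Fin 2) = a t := by
  simp [Jd]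

theorem Jd_one (d : ℕ) (a b : Sp d) (t : Fin d → Fin 2) :
    Jd d (a, b) (Fin.cons 1 t : Fin (d + 1) → Fin 2) = b t := by
  simp [Jd]

theorem sum_cons {M : Type*} [AddCommMonoid M] (d : ℕ) (f : (Fin (d + 1) → Fin 2) → M) :
    ∑ t, f t = ∑ t : Fin d → Fin 2, f (Fin.cons 0 t) + ∑ t : Fin d → Fin 2, f (Fin.cons 1 t) := by
  rw [← (Fin.consEquiv (fun _ : Fin (d + 1) => Fin 2)).sum_comp, Fintype.sum_prod_type,
    Fin.sum_univ_two]
  rfl

theorem ext_cons (d : ℕ) {x y : Sp (d + 1)}
    (h0 : ∀ t : Fin d → Fin 2, x (Fin.cons 0 t : Fin (d + 1) → Fin 2) =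
      y (Fin.cons 0 t : Fin (d + 1) → Fin 2))
    (h1 : ∀ t : Fin d → Fin 2, x (Fin.cons 1 t : Fin (d + 1) → Fin 2) =
      y (Fin.cons 1 t : Fin (d + 1) → Fin 2)) : x = y := by
  ext t
  have ht : t = Fin.cons (t 0) (Fin.tail t) := (Fin.cons_self_tail t).symm
  rcases Fin.exists_fin_two.mp ⟨t 0, rfl⟩ with h2 | h2
  · rw [ht, h2]; exact h0 _
  · rw [ht, h2]; exact h1 _

theorem inner_Jd (d : ℕ) (a b a' b' : Sp d) :
    inner ℝ (Jd d (a, b)) (Jd d (a', b')) = inner ℝ a a' + inner ℝ b b' := by
  rw [PiLp.inner_apply, PiLp.inner_apply, PiLp.inner_apply, sum_cons]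
  simp only [Jd_zero, Jd_one]

theorem mI_Jd (d : ℕ) (a b : Sp d) : mI (d + 1) (Jd d (a, b)) = Jd d (mI d a, mI d b) := by
  apply ext_cons
  · intro t
    rw [Jd_zero, mI_apply, mI_apply, PiLp.smul_apply, PiLp.smul_apply, Jd_zero]
  · intro t
    rw [Jd_one, mI_apply, mI_apply, PiLp.smul_apply, PiLp.smul_apply, Jd_one]

theorem comb_succ (d : ℕ) (z : (Fin (d + 1) → Fin 2) → GaussianInt) :
    comb (d + 1) z = Jd d (comb d fun s => z (Fin.cons 0 s),
      comb d (fun s => z (Fin.cons 0 s)) + (comb d (fun s => z (Fin.cons 1 s)) +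
        mI d (comb d fun s => z (Fin.cons 1 s)))) := by
  apply ext_cons
  · intro t
    rw [Jd_zero, comb_apply, comb_apply, sum_cons]
    simp [Fin.prod_univ_succ, matM]
  · intro t
    rw [Jd_one, mI_apply, PiLp.add_apply, PiLp.add_apply, PiLp.smul_apply, comb_apply, comb_apply,
      comb_apply, sum_cons]
    simp only [Fin.prod_univ_succ, matM, Fin.cons_zero, Fin.cons_succ]
    simp only [Matrix.of_apply, Matrix.cons_val_zero, Matrix.cons_val_one, smul_eq_mul,
      Finset.mul_sum, Matrix.cons_val', Matrix.cons_val_fin_one, one_mul, ← Finset.sum_add_distrib]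
    refine Finset.sum_congr rfl fun s _ => ?_
    ring

theorem mem_succ (d : ℕ) (a b : Sp d) : Jd d (a, b) ∈ grp (d + 1) ↔
    a ∈ grp d ∧ ∃ l ∈ grp d, b = a + (l + mI d l) := by
  constructor
  · rintro ⟨z, hz⟩
    rw [comb_succ] at hz
    have h := (Jd d).injective hz
    rw [Prod.mk.injEq] at h
    obtain ⟨rfl, rfl⟩ := h
    exact ⟨⟨_, rfl⟩, _, ⟨_, rfl⟩, rfl⟩
  · rintro ⟨⟨z0, rfl⟩, _, ⟨z1, rfl⟩, rfl⟩
    refine ⟨fun t => if t 0 = 0 then z0 (Fin.tail t) else z1 (Fin.tail t), ?_⟩
    rw [comb_succ]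
    simp

theorem norm_lam (d : ℕ) (l : Sp d) : inner ℝ (l + mI d l) (l + mI d l) = 2 * inner ℝ l l := by
  have h1 : inner ℝ l (mI d l) = 0 := by
    have h2 := inner_mI d l (mI d l)
    have h3 : mI d (mI d l) = - l := by
      rw [mI_apply, mI_apply, smul_smul, I_mul_I, neg_one_smul]
    rw [h3, inner_neg_right, real_inner_comm] at h2
    linarith
  rw [inner_add_left, inner_add_right, inner_add_right, inner_mI, real_inner_comm l (mI d l), h1]
  ring

theorem mI_mem (d : ℕ) {x : Sp d} (hx : x ∈ grp d) : mI d x ∈ grp d := by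
  obtain ⟨z, rfl⟩ := hx
  exact ⟨_, comb_I d z⟩

theorem comb_zero_apply (z : (Fin 0 → Fin 2) → GaussianInt) (t : Fin 0 → Fin 2) :
    comb 0 z t = GaussianInt.toComplex (z t) := by
  rw [comb_apply, Fintype.sum_unique]
  simp only [Finset.univ_eq_empty, Finset.prod_empty, mul_one]
  exact congrArg (fun s => GaussianInt.toComplex (z s)) (Subsingleton.elim _ _)

theorem min_norm (d : ℕ) : ∀ x ∈ grp d, x ≠ 0 → (2 : ℝ) ^ d ≤ inner ℝ x x := by
  induction d with
  | zero =>
    rintro _ ⟨z, rfl⟩ hx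
    have hz : ∀ t, z t ≠ 0 := by
      intro t' h
      apply hx
      ext t
      rw [comb_zero_apply, Subsingleton.elim t t', h]
      simp
    rw [PiLp.inner_apply, Fintype.sum_unique, comb_zero_apply, real_inner_self_eq_norm_sq,
      ← Complex.normSq_eq_norm_sq, ← GaussianInt.intCast_real_norm, pow_zero]
    have h2 : ∀ t, 1 ≤ Zsqrtd.norm (z t) := fun t =>
      Int.add_one_le_iff.mpr (GaussianInt.norm_pos.mpr (hz t))
    exact_mod_cast h2 _
  | succ d ih =>
    intro x hx hx0
    obtain ⟨⟨a, b⟩, rfl⟩ := (Jd d).surjective x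
    obtain ⟨ha, l, hl, rfl⟩ := (mem_succ d _ _).mp hx
    have hbL : a + (l + mI d l) ∈ grp d :=
      (grp d).add_mem ha ((grp d).add_mem hl (mI_mem d hl))
    rw [inner_Jd, pow_succ]
    by_cases ha0 : a = 0
    · subst ha0
      rw [inner_zero_left, zero_add, zero_add, norm_lam]
      have hl0 : l ≠ 0 := by
        rintro rfl
        apply hx0
        simp
      have := ih l hl hl0
      linarith
    · have h1 := ih a ha ha0
      by_cases hb0 : a + (l + mI d l) = 0
      · have h2 : a = -(l + mI d l) := eq_neg_of_add_eq_zero_left hb0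
        rw [hb0, inner_zero_left, h2, inner_neg_neg, norm_lam]
        have hl0 : l ≠ 0 := by
          rintro rfl
          apply ha0
          simpa using h2
        have := ih l hl hl0
        linarith
      · have h2 := ih _ hbL hb0
        linarith

/-- The Barnes-Wall lattices as lattices with a complex structure. -/
noncomputable def lvl (d : ℕ) : Lvl (Sp d) where
  I := mI d
  L := grp d
  m := 2 ^ d
  mpos := by positivity
  II x := by rw [mI_apply, mI_apply, smul_smul, I_mul_I, neg_one_smul]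
  innI := inner_mI d
  LI _ hx := mI_mem d hx
  min := min_norm d

/-- The recursion. -/
noncomputable def dbl (d : ℕ) : Dbl (lvl d) (lvl (d + 1)) where
  J := Jd d
  inn := inner_Jd d
  JI := mI_Jd d
  mem a b := mem_succ d a b
  hm := by
    show (2 : ℝ) ^ (d + 1) = 2 * 2 ^ d
    rw [pow_succ]; ring

/-- The first lattice. -/
noncomputable def base : Base (lvl 0) where
  e := WithLp.toLp 2 fun _ => 1
  inn := by
    show _ = (2 : ℝ) ^ 0
    rw [PiLp.inner_apply, Fintype.sum_unique, real_inner_self_eq_norm_sq]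
    simp
  span x := by
    refine ⟨(x default).re, (x default).im, ?_⟩
    show x = _ + _ • mI 0 _
    ext t
    rw [Subsingleton.elim t default]
    simp only [mI_apply, PiLp.add_apply, PiLp.smul_apply, smul_eq_mul, mul_one,
      Complex.real_smul]
    exact (Complex.re_add_im _).symm
  mem x := by
    constructor
    · rintro ⟨z, rfl⟩
      refine ⟨(z default).re, (z default).im, ?_⟩
      show comb 0 z = _ + _ • mI 0 _
      ext t
      rw [comb_zero_apply, Subsingleton.elim t default]
      simp only [mI_apply, PiLp.add_apply, PiLp.smul_apply, smul_eq_mul, mul_one,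
        Complex.real_smul, GaussianInt.toComplex_def]
      push_cast
      rfl
    · rintro ⟨s, t, rfl⟩
      refine ⟨fun _ => ⟨s, t⟩, ?_⟩
      show comb 0 _ = _ + _ • mI 0 _
      ext u
      rw [comb_zero_apply]
      simp only [mI_apply, PiLp.add_apply, PiLp.smul_apply, smul_eq_mul, mul_one,
        Complex.real_smul, GaussianInt.toComplex_def]
      push_cast
      rfl

theorem good (d : ℕ) : (lvl d).Good := by
  induction d with
  | zero => exact base.good
  | succ d ih => exact (dbl d).good ih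

theorem ir (d : ℕ) : (lvl (d + 1)).IR := by
  induction d with
  | zero => exact base.ir (dbl 0)
  | succ d ih => exact (dbl (d + 1)).ir (good (d + 1)) ih

theorem jammed (d : ℕ) : IsJammedCode (kissingConfiguration (rowLattice d)) := by
  rcases d with _ | d
  · exact base.jammed
  · refine (lvl (d + 1)).jammed_half (good (d + 1)).fin (ir d) ?_
    obtain ⟨b, hb⟩ := (good d).ne
    refine ⟨_, (dbl d).C3 hb hb ((lvl d).sim_refl b), _,
      (dbl d).C3 hb ((lvl d).C_I hb) ((lvl d).sim_I hb.1), ?_⟩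
    rw [(dbl d).inn, hb.2, (lvl d).inn_I_self, (dbl d).hm]
    ring

end Q184.BW
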