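import Mathlib

/-!
# Lattices over the Gaussian integers in a Euclidean space with a complex structure
-/

set_option autoImplicit false

namespace Q184.BW

/-- A lattice which is stable under a complex structure, with a lower bound for its norms. -/
structure Lvl (E : Type*) [NormedAddCommGroup E] [InnerProductSpace ℝ E] where
  I : E →ₗ[ℝ] E
  L : AddSubgroup E
  m : ℝ
  mpos : 0 < m
  II : ∀ x, I (I x) = -x
  innI : ∀ x y, inner ℝ (I x) (I y) = inner ℝ x y
  LI : ∀ x ∈ L, I x ∈ L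
  min : ∀ x ∈ L, x ≠ 0 → m ≤ inner ℝ x x

namespace Lvl

section

variable {E : Type*} [NormedAddCommGroup E] [InnerProductSpace ℝ E] (P : Lvl E)

/-- Multiplication by `1 + i`. -/
def lam : E →ₗ[ℝ] E := LinearMap.id + P.I

/-- Multiplication by `1 - i`. -/
def lamc : E →ₗ[ℝ] E := LinearMap.id - P.I

theorem lam_apply (x : E) : P.lam x = x + P.I x := rfl

theorem lamc_apply (x : E) : P.lamc x = x - P.I x := rfl

theorem I_skew (x y : E) : inner ℝ (P.I x) y = - inner ℝ x (P.I y) := by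
  have h := P.innI x (P.I y)
  rw [P.II, inner_neg_right] at h
  linarith

theorem lam_lam (x y : E) : inner ℝ (P.lam x) (P.lam y) = 2 * inner ℝ x y := by
  rw [lam_apply, lam_apply, inner_add_left, inner_add_right, inner_add_right, P.innI, P.I_skew]
  ring

theorem lam_adj (x y : E) : inner ℝ (P.lam x) y = inner ℝ x (P.lamc y) := by
  rw [lam_apply, lamc_apply, inner_add_left, inner_sub_right, P.I_skew]
  ring

theorem lamc_adj (x y : E) : inner ℝ (P.lamc x) y = inner ℝ x (P.lam y) := by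
  rw [lam_apply, lamc_apply, inner_sub_left, inner_add_right, P.I_skew]
  ring

theorem lam_lamc (x : E) : P.lam (P.lamc x) = (2 : ℝ) • x := by
  rw [lam_apply, lamc_apply, map_sub, P.II, two_smul]
  abel

theorem lamc_lam (x : E) : P.lamc (P.lam x) = (2 : ℝ) • x := by
  rw [lam_apply, lamc_apply, map_add, P.II, two_smul]
  abel

theorem lam_sq (x : E) : P.lam (P.lam x) = (2 : ℝ) • P.I x := by
  rw [lam_apply, lam_apply, map_add, P.II, two_smul]
  abel

theorem lam_inj {x y : E} (h : P.lam x = P.lam y) : x = y := by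
  have h1 : (2 : ℝ) • x = (2 : ℝ) • y := by rw [← P.lamc_lam, ← P.lamc_lam, h]
  exact smul_right_injective E (two_ne_zero : (2 : ℝ) ≠ 0) h1

theorem lam_eq_zero {x : E} (h : P.lam x = 0) : x = 0 := P.lam_inj (by rw [h, map_zero])

theorem lamc_eq_zero {x : E} (h : P.lamc x = 0) : x = 0 := by
  have h1 : (2 : ℝ) • x = 0 := by rw [← P.lam_lamc, h, map_zero]
  simpa using h1

theorem lam_mem {x : E} (h : x ∈ P.L) : P.lam x ∈ P.L := P.L.add_mem h (P.LI x h)

theorem lamc_mem {x : E} (h : x ∈ P.L) : P.lamc x ∈ P.L := P.L.sub_mem h (P.LI x h)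

/-- The shell. -/
def C : Set E := {x | x ∈ P.L ∧ inner ℝ x x = P.m}

/-- Congruence modulo `1 + i`. -/
def sim (x y : E) : Prop := ∃ l ∈ P.L, y = x + P.lam l

theorem sim_refl (x : E) : P.sim x x := ⟨0, P.L.zero_mem, by simp⟩

theorem sim_symm {x y : E} (h : P.sim x y) : P.sim y x := by
  obtain ⟨l, hl, rfl⟩ := h
  exact ⟨-l, P.L.neg_mem hl, by simp⟩

theorem sim_trans {x y z : E} (h : P.sim x y) (h' : P.sim y z) : P.sim x z := by
  obtain ⟨l, hl, rfl⟩ := h
  obtain ⟨k, hk, rfl⟩ := h'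
  exact ⟨l + k, P.L.add_mem hl hk, by rw [map_add, add_assoc]⟩

theorem sim_neg_right {x y : E} (hx : x ∈ P.L) (h : P.sim x y) : P.sim x (-y) := by
  obtain ⟨l, hl, rfl⟩ := h
  refine ⟨-P.lamc x - l, P.L.sub_mem (P.L.neg_mem (P.lamc_mem hx)) hl, ?_⟩
  rw [map_sub, map_neg, P.lam_lamc, two_smul]
  abel

theorem sim_neg_self {x : E} (hx : x ∈ P.L) : P.sim x (-x) := P.sim_neg_right hx (P.sim_refl x)

theorem sim_neg_left {x y : E} (hy : y ∈ P.L) (h : P.sim x y) : P.sim (-x) y :=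
  P.sim_symm (P.sim_neg_right hy (P.sim_symm h))

theorem sim_I {x : E} (hx : x ∈ P.L) : P.sim x (P.I x) := by
  refine ⟨P.I x, P.LI x hx, ?_⟩
  rw [lam_apply, P.II]
  abel

theorem sim_neg_I {x : E} (hx : x ∈ P.L) : P.sim x (-P.I x) :=
  P.sim_neg_right hx (P.sim_I hx)

theorem C_neg {x : E} (hx : x ∈ P.C) : -x ∈ P.C :=
  ⟨P.L.neg_mem hx.1, by rw [inner_neg_neg]; exact hx.2⟩

theorem C_I {x : E} (hx : x ∈ P.C) : P.I x ∈ P.C :=
  ⟨P.LI x hx.1, by rw [P.innI]; exact hx.2⟩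

theorem inn_I_self (x : E) : inner ℝ x (P.I x) = 0 := by
  have := P.I_skew x x
  rw [real_inner_comm] at this
  linarith

theorem inn_I_self' (x : E) : inner ℝ (P.I x) x = 0 := by
  rw [real_inner_comm]; exact P.inn_I_self x

theorem ne_zero_of_C {x : E} (hx : x ∈ P.C) : x ≠ 0 := by
  rintro rfl
  have := hx.2
  rw [inner_zero_left] at this
  exact P.mpos.ne this

theorem not_lam {x l : E} (hx : x ∈ P.C) (hl : l ∈ P.L) (h : x = P.lam l) : False := by
  have h1 := hx.2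
  rw [h, P.lam_lam] at h1
  have hl0 : l ≠ 0 := by
    rintro rfl
    rw [map_zero] at h
    exact P.ne_zero_of_C hx h
  have h2 := P.min l hl hl0
  have := P.mpos
  linarith

theorem inn_le_of_sim {x y : E} (hx : x ∈ P.C) (hy : y ∈ P.C) (h : P.sim x y) :
    y = x ∨ inner ℝ x y ≤ 0 := by
  obtain ⟨l, hl, hyl⟩ := h
  by_cases hl0 : l = 0
  · left; rw [hyl, hl0, map_zero, add_zero]
  · right
    have h1 := P.min l hl hl0
    have h2 : inner ℝ (y - x) (y - x) = 2 * inner ℝ l l := by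
      rw [hyl, add_sub_cancel_left, P.lam_lam]
    rw [inner_sub_left, inner_sub_right, inner_sub_right, hy.2, hx.2, real_inner_comm] at h2
    linarith

theorem tri {x y : E} (hx : x ∈ P.C) (hy : y ∈ P.C) (h : P.sim x y) :
    y = x ∨ y = -x ∨ inner ℝ x y = 0 := by
  rcases P.inn_le_of_sim hx hy h with h1 | h1
  · exact Or.inl h1
  · rcases P.inn_le_of_sim hx (P.C_neg hy) (P.sim_neg_right hx.1 h) with h2 | h2
    · right; left; rw [← h2, neg_neg]
    · right; right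
      rw [inner_neg_right] at h2
      linarith

theorem sub_mem_C {x y : E} (hx : x ∈ P.C) (hy : y ∈ P.C) (h : inner ℝ x y = P.m / 2) :
    x - y ∈ P.C := by
  refine ⟨P.L.sub_mem hx.1 hy.1, ?_⟩
  have h2 : inner ℝ y x = P.m / 2 := by rw [real_inner_comm]; exact h
  rw [inner_sub_left, inner_sub_right, inner_sub_right, hy.2, hx.2, h2, h]
  ring

theorem inn_le {x y : E} (hx : x ∈ P.C) (hy : y ∈ P.C) (hxy : x ≠ y) :
    inner ℝ x y ≤ P.m / 2 := by
  have h := P.min (x - y) (P.L.sub_mem hx.1 hy.1) (sub_ne_zero.mpr hxy)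
  rw [inner_sub_left, inner_sub_right, inner_sub_right, hy.2, hx.2, real_inner_comm] at h
  have h2 : inner ℝ y x = inner ℝ x y := real_inner_comm _ _
  linarith

/-- First order rigidity, with equalities on the contacts. -/
def IR : Prop := ∀ v : E → E, (∀ x ∈ P.C, inner ℝ (v x) x = 0) →
  (∀ x ∈ P.C, ∀ y ∈ P.C, inner ℝ x y = P.m / 2 → inner ℝ (v x) y + inner ℝ x (v y) = 0) →
  ∃ A : E →ₗ[ℝ] E, (∀ u w, inner ℝ (A u) w = - inner ℝ u (A w)) ∧ ∀ x ∈ P.C, v x = A x

theorem odd (v : E → E) (ht : ∀ x ∈ P.C, inner ℝ (v x) x = 0)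
    (hc : ∀ x ∈ P.C, ∀ y ∈ P.C, inner ℝ x y = P.m / 2 →
      inner ℝ (v x) y + inner ℝ x (v y) = 0)
    {x y : E} (hx : x ∈ P.C) (hy : y ∈ P.C) (h : inner ℝ x y = P.m / 2) :
    inner ℝ x (v y) + inner ℝ x (v (-y)) = 0 := by
  have hz := P.sub_mem_C hx hy h
  have hy' := P.C_neg hy
  have e1 := hc x hx y hy h
  have e2 := hc x hx (x - y) hz (by rw [inner_sub_right, hx.2, h]; ring)
  have e3 := hc (-y) hy' (x - y) hz (by
    rw [inner_sub_right, inner_neg_left, inner_neg_left, hy.2, real_inner_comm, h]; ring)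
  have t1 := ht x hx
  have t2 := ht (x - y) hz
  have t3 := ht (-y) hy'
  rw [inner_sub_right] at e2 e3 t2
  rw [inner_neg_left] at e3
  rw [inner_neg_right] at t3
  have c1 : inner ℝ x (v (-y)) = inner ℝ (v (-y)) x := real_inner_comm _ _
  have c2 : inner ℝ x (v (x - y)) = inner ℝ (v (x - y)) x := real_inner_comm _ _
  have c3 : inner ℝ y (v (x - y)) = inner ℝ (v (x - y)) y := real_inner_comm _ _
  linarith

/-- The frame of `b` spans. -/
def SpF (b : E) : Prop := ∀ w : E, (∀ c ∈ P.C, P.sim b c → inner ℝ w c = 0) → w = 0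

/-- The vectors `(1 + i) a` nearest to `b` span. -/
def SpN (b : E) : Prop := ∀ w : E,
  (∀ a ∈ P.C, inner ℝ (P.lam a) b = P.m → inner ℝ w (P.lam a) = 0) → w = 0

/-- Automorphisms. -/
structure Au (g : E →ₗ[ℝ] E) : Prop where
  inn : ∀ x y, inner ℝ (g x) (g y) = inner ℝ x y
  I : ∀ x, g (P.I x) = P.I (g x)
  L : ∀ x ∈ P.L, g x ∈ P.L

/-- Automorphisms congruent to the identity. -/
structure Gm (g : E →ₗ[ℝ] E) : Prop where
  inn : ∀ x y, inner ℝ (g x) (g y) = inner ℝ x y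
  I : ∀ x, g (P.I x) = P.I (g x)
  cong : ∀ x ∈ P.L, P.sim x (g x)

variable {P}

theorem Gm.au {g : E →ₗ[ℝ] E} (h : P.Gm g) : P.Au g := by
  refine ⟨h.inn, h.I, fun x hx => ?_⟩
  obtain ⟨l, hl, he⟩ := h.cong x hx
  rw [he]
  exact P.L.add_mem hx (P.lam_mem hl)

theorem Au.lam {g : E →ₗ[ℝ] E} (h : P.Au g) (x : E) : g (P.lam x) = P.lam (g x) := by
  rw [lam_apply, lam_apply, map_add, h.I]

theorem Au.C {g : E →ₗ[ℝ] E} (h : P.Au g) {x : E} (hx : x ∈ P.C) : g x ∈ P.C :=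
  ⟨h.L x hx.1, by rw [h.inn]; exact hx.2⟩

theorem Au.sim {g : E →ₗ[ℝ] E} (h : P.Au g) {x y : E} (hxy : P.sim x y) : P.sim (g x) (g y) := by
  obtain ⟨l, hl, rfl⟩ := hxy
  exact ⟨g l, h.L l hl, by rw [map_add, h.lam]⟩

theorem Gm.comp {g k : E →ₗ[ℝ] E} (hg : P.Gm g) (hk : P.Gm k) : P.Gm (g ∘ₗ k) := by
  refine ⟨fun x y => ?_, fun x => ?_, fun x hx => ?_⟩
  · simp only [LinearMap.comp_apply]; rw [hg.inn, hk.inn]
  · simp only [LinearMap.comp_apply]; rw [hk.I, hg.I]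
  · exact P.sim_trans (hk.cong x hx) (hg.cong _ (hk.au.L x hx))

theorem Au.surj [FiniteDimensional ℝ E] {g : E →ₗ[ℝ] E} (h : P.Au g) : Function.Surjective g := by
  rw [← LinearMap.injective_iff_surjective, injective_iff_map_eq_zero]
  intro x hx
  have := h.inn x x
  rw [hx, inner_zero_left] at this
  exact inner_self_eq_zero.mp this.symm

theorem Au.spF [FiniteDimensional ℝ E] {g : E →ₗ[ℝ] E} (h : P.Au g) {x : E} (hx : P.SpF x) :
    P.SpF (g x) := by
  intro w hw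
  obtain ⟨w, rfl⟩ := h.surj w
  rw [hx w fun c hc hs => by rw [← h.inn]; exact hw _ (h.C hc) (h.sim hs), map_zero]

theorem Au.spN [FiniteDimensional ℝ E] {g : E →ₗ[ℝ] E} (h : P.Au g) {x : E} (hx : P.SpN x) :
    P.SpN (g x) := by
  intro w hw
  obtain ⟨w, rfl⟩ := h.surj w
  rw [hx w fun a ha hs => by
    rw [← h.inn, h.lam]
    exact hw _ (h.C ha) (by rw [← h.lam, h.inn]; exact hs), map_zero]

variable (P)

/-- Transitivity on frames. -/
def Tr : Prop := ∀ b ∈ P.C, ∀ c ∈ P.C, P.sim b c → ∃ g : E →ₗ[ℝ] E, P.Gm g ∧ g b = c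

/-- The frame of `x` is close to the frame of `y`. -/
def G (x y : E) : Prop := ∀ x' ∈ P.C, P.sim x x' →
  ∃ y' ∈ P.C, P.sim y y' ∧ inner ℝ (P.lam x') y' = P.m

/-- Connectivity of the set of frames. -/
def Conn : Prop := ∀ S : Set E, (∀ x ∈ P.C, ∀ y ∈ P.C, P.G x y → (x ∈ S ↔ y ∈ S)) →
  ∀ x ∈ P.C, ∀ y ∈ P.C, x ∈ S → y ∈ S

theorem lam_self {x : E} (hx : x ∈ P.C) : inner ℝ (P.lam x) x = P.m := by
  rw [lam_apply, inner_add_left, P.inn_I_self', hx.2, add_zero]

theorem G_of_sim {x y : E} (h : P.sim x y) : P.G x y := fun x' hx' hs =>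
  ⟨x', hx', P.sim_trans (P.sim_symm h) hs, P.lam_self hx'⟩

/-- The properties which are carried along the recursion. -/
structure Good : Prop where
  fin : P.C.Finite
  ne : P.C.Nonempty
  spF : ∀ b ∈ P.C, P.SpF b
  spN : ∀ b ∈ P.C, P.SpN b
  tr : P.Tr
  conn : P.Conn

end

end Lvl

end Q184.BW
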