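import Pool.Agent.Q75.BW.Stm

/-! Project BW (helper75), job QQ: a polynomial divisible by the derivative. -/

set_option autoImplicit false

open Set Filter Topology Metric MeasureTheory Polynomial
open scoped ContDiff ComplexConjugate

namespace Pool.Agent.Q184.BW

open Pool.Agent.H720R2.HP Pool.Agent.Q75.BW

/-- dividing out one zero -/
theorem div_zero_at {X : Set ℂ} (hX : IsOpen X) {h : ℂ → ℂ} (hh : DifferentiableOn ℂ h X)
    (hfin : {z | z ∈ X ∧ h z = 0}.Finite) {a : ℂ} (ha : a ∈ X) (h0 : h a = 0) :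
    ∃ (n : ℕ) (G : ℂ → ℂ), 0 < n ∧ DifferentiableOn ℂ G X ∧ G a ≠ 0 ∧
      (∀ z ∈ X, h z = (z - a) ^ n * G z) ∧ ∀ z, z ≠ a → G z = h z / (z - a) ^ n := by
  have han : AnalyticAt ℂ h a := hh.analyticAt (hX.mem_nhds ha)
  have hne : ¬ ∀ᶠ z in 𝓝 a, h z = 0 := by
    intro hev
    have h1 : {z | z ∈ X ∧ h z = 0} ∈ 𝓝 a := by
      filter_upwards [hev, hX.mem_nhds ha] with z h1 h2
      exact ⟨h2, h1⟩
    have h2 : ({z | z ∈ X ∧ h z = 0}).Infinite := infinite_of_mem_nhds a h1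
    exact h2 hfin
  obtain ⟨n, g, hg, hga, hev⟩ := han.exists_eventuallyEq_pow_smul_nonzero_iff.2 hne
  have hn : 0 < n := by
    rcases Nat.eq_zero_or_pos n with rfl | hn
    · have := hev.self_of_nhds
      rw [h0, pow_zero, one_smul] at this
      exact absurd this.symm hga
    · exact hn
  set G : ℂ → ℂ := fun z => if z = a then g a else h z / (z - a) ^ n with hG
  have hGa : G a = g a := by rw [hG]; simp
  have hGz : ∀ z, z ≠ a → G z = h z / (z - a) ^ n := by
    intro z hz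
    rw [hG]
    simp only [if_neg hz]
  have hGg : G =ᶠ[𝓝 a] g := by
    filter_upwards [hev] with z hz
    by_cases hza : z = a
    · rw [hza, hGa]
    · rw [hGz z hza, hz, smul_eq_mul, mul_div_cancel_left₀ _ (pow_ne_zero n (sub_ne_zero.2 hza))]
  refine ⟨n, G, hn, ?_, by rw [hGa]; exact hga, ?_, hGz⟩
  · intro z hz
    by_cases hza : z = a
    · rw [hza]
      exact (hg.differentiableAt.congr_of_eventuallyEq hGg).differentiableWithinAt
    · have h1 : G =ᶠ[𝓝 z] fun z => h z / (z - a) ^ n := by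
        filter_upwards [isOpen_ne.mem_nhds hza] with w hw
        exact hGz w hw
      have h2 : DifferentiableAt ℂ (fun z => h z / (z - a) ^ n) z :=
        ((hh z hz).differentiableAt (hX.mem_nhds hz)).div
          ((differentiableAt_id.sub_const a).pow n) (pow_ne_zero n (sub_ne_zero.2 hza))
      exact (h2.congr_of_eventuallyEq h1).differentiableWithinAt
  · intro z _
    by_cases hza : z = a
    · rw [hza, h0, sub_self, zero_pow hn.ne', zero_mul]
    · rw [hGz z hza, mul_div_cancel₀ _ (pow_ne_zero n (sub_ne_zero.2 hza))]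

theorem exists_q {X : Set ℂ} (hX : IsOpen X) (n : ℕ) : ∀ (h : ℂ → ℂ), DifferentiableOn ℂ h X →
    {z | z ∈ X ∧ h z = 0}.Finite → {z | z ∈ X ∧ h z = 0}.ncard = n →
    ∃ (q : ℂ[X]) (r : ℂ → ℂ), q ≠ 0 ∧ (∀ z, z ∉ X → q.eval z ≠ 0) ∧ DifferentiableOn ℂ r X ∧
      ∀ z ∈ X, r z * h z = q.eval z := by
  induction n with
  | zero =>
    intro h hh hfin hc
    rw [Set.ncard_eq_zero hfin] at hc
    have hnz : ∀ z ∈ X, h z ≠ 0 := by
      intro z hz h0
      have : z ∈ {z | z ∈ X ∧ h z = 0} := ⟨hz, h0⟩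
      rw [hc] at this
      exact this
    refine ⟨1, fun z => (h z)⁻¹, one_ne_zero, fun z _ => by simp, hh.inv hnz, fun z hz => ?_⟩
    rw [inv_mul_cancel₀ (hnz z hz)]
    simp
  | succ n ih =>
    intro h hh hfin hc
    obtain ⟨a, ha⟩ : {z | z ∈ X ∧ h z = 0}.Nonempty := by
      rw [← Set.ncard_pos hfin, hc]
      exact Nat.succ_pos n
    obtain ⟨m, G, hm, hGd, hGa, hGh, hGz⟩ := div_zero_at hX hh hfin ha.1 ha.2
    have hset : {z | z ∈ X ∧ G z = 0} = {z | z ∈ X ∧ h z = 0} \ {a} := by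
      ext z
      constructor
      · rintro ⟨h1, h2⟩
        refine ⟨⟨h1, by rw [hGh z h1, h2, mul_zero]⟩, ?_⟩
        rintro rfl
        exact hGa h2
      · rintro ⟨⟨h1, h2⟩, h3⟩
        have hza : z ≠ a := h3
        exact ⟨h1, by rw [hGz z hza, h2, zero_div]⟩
    have hfin' : {z | z ∈ X ∧ G z = 0}.Finite := by rw [hset]; exact hfin.subset diff_subset
    have hc' : {z | z ∈ X ∧ G z = 0}.ncard = n := by
      rw [hset, Set.ncard_diff_singleton_of_mem ha, hc]
      rfl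
    obtain ⟨q, r, hq0, hqX, hr, hrq⟩ := ih G hGd hfin' hc'
    refine ⟨q * (Polynomial.X - Polynomial.C a) ^ m, r, ?_, ?_, hr, ?_⟩
    · exact mul_ne_zero hq0 (pow_ne_zero _ (Polynomial.X_sub_C_ne_zero a))
    · intro z hz
      rw [eval_mul, eval_pow, eval_sub, eval_X, eval_C]
      refine mul_ne_zero (hqX z hz) (pow_ne_zero _ (sub_ne_zero.2 ?_))
      rintro rfl
      exact hz ha.1
    · intro z hz
      rw [eval_mul, eval_pow, eval_sub, eval_X, eval_C, ← hrq z hz, hGh z hz]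
      ring

theorem t_QQ : S_QQ := by
  intro f Δ X O hg
  have hXO : X ⊆ O := subset_closure.trans hg.XO
  have h1 : DifferentiableOn ℂ (deriv f) X := (hg.hol.deriv hg.Oo).mono hXO
  have h2 : {z | z ∈ X ∧ deriv f z = 0}.Finite :=
    hg.crit.subset fun z hz => ⟨subset_closure hz.1, hz.2⟩
  obtain ⟨q, r, hq0, hqX, hr, hrq⟩ := exists_q hg.Xo _ (deriv f) h1 h2 rfl
  exact ⟨q, r, ⟨hq0, hqX, hr, hrq⟩⟩

end Pool.Agent.Q184.BW
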