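import Pool.Agent.Q184.BW.Base
import Pool.Agent.Q184.BW.Defs
import Pool.Agent.H976R3.Kiss.Jam

/-!
# From equalities to inequalities, and jamming
-/

set_option autoImplicit false

namespace Q184.BW

open Pool.Agent.H976R3.Kiss



variable {E : Type*} [NormedAddCommGroup E] [InnerProductSpace ℝ E]

namespace Lvl

variable (P : Lvl E)

/-- The rescaled shell. -/
noncomputable def X (x : P.C) : E := (√P.m)⁻¹ • (x : E)

theorem sqrt_pos : 0 < √P.m := Real.sqrt_pos.mpr P.mpos

theorem X_inner (x y : P.C) : inner ℝ (P.X x) (P.X y) = inner ℝ (x : E) y / P.m := by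
  have h := P.sqrt_pos
  rw [X, X, inner_smul_left, inner_smul_right, conj_trivial, ← mul_assoc, ← mul_inv,
    Real.mul_self_sqrt P.mpos.le]
  field_simp

theorem X_norm (x : P.C) : ‖P.X x‖ = 1 := by
  have h := P.X_inner x x
  rw [x.2.2, div_self P.mpos.ne', real_inner_self_eq_norm_sq] at h
  nlinarith [norm_nonneg (P.X x)]

theorem C_norm {x : E} (hx : x ∈ P.C) : ‖x‖ = √P.m := by
  rw [← hx.2, real_inner_self_eq_norm_sq, Real.sqrt_sq (norm_nonneg _)]

theorem minimal_eq (h : P.C.Nonempty) : minimalVectors (P.L : Set E) = P.C := by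
  obtain ⟨z, hz⟩ := h
  ext x
  constructor
  · rintro ⟨h1, h2, h3⟩
    refine ⟨h1, le_antisymm ?_ (P.min x h1 h2)⟩
    have h4 := h3 z hz.1 (P.ne_zero_of_C hz)
    rw [← hz.2, real_inner_self_eq_norm_sq, real_inner_self_eq_norm_sq]
    exact pow_le_pow_left₀ (norm_nonneg _) h4 2
  · intro hx
    refine ⟨hx.1, P.ne_zero_of_C hx, fun y hy hy0 => ?_⟩
    rw [P.C_norm hx]
    apply Real.sqrt_le_iff.mpr
    refine ⟨norm_nonneg _, ?_⟩
    rw [← real_inner_self_eq_norm_sq]
    exact P.min y hy hy0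

theorem kissing_eq (h : P.C.Nonempty) : kissingConfiguration (P.L : Set E) = Set.range P.X := by
  rw [kissingConfiguration, P.minimal_eq h]
  ext x
  constructor
  · rintro ⟨y, hy, rfl⟩
    exact ⟨⟨y, hy⟩, by simp only [X]; rw [P.C_norm hy]⟩
  · rintro ⟨y, rfl⟩
    exact ⟨y, y.2, by simp only [X]; rw [P.C_norm y.2]⟩

theorem X_inj : Function.Injective P.X := by
  intro x y h
  have h1 := P.sqrt_pos
  have := smul_right_injective E (inv_ne_zero h1.ne') h
  exact Subtype.ext this

theorem jammed [FiniteDimensional ℝ E] (hfin : P.C.Finite) (hne : P.C.Nonempty) (c : ℝ)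
    (hc1 : -1 ≤ c) (hc2 : c ≤ 1)
    (hinf : InfJammed P.X c) (hex : ∃ x ∈ P.C, ∃ y ∈ P.C, x ≠ y ∧ inner ℝ x y = c * P.m)
    (hle : ∀ x ∈ P.C, ∀ y ∈ P.C, x ≠ y → inner ℝ x y ≤ c * P.m) :
    IsJammedCode (kissingConfiguration (P.L : Set E)) := by
  have : Fintype P.C := hfin.fintype
  have hm := P.mpos
  rw [P.kissing_eq hne]
  have hang : ∀ x y : P.C, InnerProductGeometry.angle (P.X x) (P.X y) =
      Real.arccos (inner ℝ (x : E) y / P.m) := by
    intro x y
    rw [InnerProductGeometry.angle, P.X_norm, P.X_norm, P.X_inner]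
    simp
  refine ⟨Set.finite_range _, ?_, Real.arccos c, ⟨?_, ?_⟩, ?_⟩
  · rintro _ ⟨x, rfl⟩
    exact P.X_norm x
  · obtain ⟨x, hx, y, hy, hxy, he⟩ := hex
    refine ⟨P.X ⟨x, hx⟩, ⟨_, rfl⟩, P.X ⟨y, hy⟩, ⟨_, rfl⟩, fun h => hxy ?_, ?_⟩
    · exact congrArg Subtype.val (P.X_inj h)
    · rw [hang]
      show _ = Real.arccos (inner ℝ x y / P.m)
      rw [he, mul_div_assoc, div_self hm.ne', mul_one]
  · rintro _ ⟨_, ⟨x, rfl⟩, _, ⟨y, rfl⟩, hxy, rfl⟩
    rw [hang]
    apply Real.arccos_le_arccos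
    rw [div_le_iff₀ hm]
    exact hle x x.2 y y.2 fun h => hxy (by rw [Subtype.ext h])
  · intro γ hγ
    have key := jammed_of_infJammed P.X c P.X_norm hinf (fun x => γ ⟨P.X x, ⟨x, rfl⟩⟩)
      (fun x => hγ.continuous _) (fun x => hγ.start _) (fun x => hγ.unit _)
      (fun x y hxy t => by
        have := hγ.separated ⟨P.X x, ⟨x, rfl⟩⟩ ⟨P.X y, ⟨y, rfl⟩⟩
          (fun h => hxy (P.X_inj (congrArg Subtype.val h))) t
        rwa [Real.cos_arccos hc1 hc2] at this)
    choose g hg using key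
    refine ⟨g, fun t x => ?_⟩
    obtain ⟨_, ⟨x, rfl⟩⟩ := x
    exact hg t x

theorem infJammed [FiniteDimensional ℝ E] (hfin : P.C.Finite) (hIR : P.IR) : InfJammed P.X (1 / 2) := by
  classical
  intro v hv hcon
  have hm := P.mpos
  have hsq := P.sqrt_pos
  set w : E → E := fun x => if h : x ∈ P.C then v ⟨x, h⟩ else 0 with hw
  have hwC : ∀ (x : E) (h : x ∈ P.C), w x = v ⟨x, h⟩ := by
    intro x h; simp [hw, h]
  have ht : ∀ x ∈ P.C, inner ℝ (w x) x = 0 := by
    intro x hx
    have h1 := hv ⟨x, hx⟩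
    rw [X, inner_smul_left, conj_trivial] at h1
    rw [hwC x hx, real_inner_comm]
    exact (mul_eq_zero.mp h1).resolve_left (inv_ne_zero hsq.ne')
  have hle : ∀ x ∈ P.C, ∀ y ∈ P.C, inner ℝ x y = P.m / 2 →
      inner ℝ (w x) y + inner ℝ x (w y) ≤ 0 := by
    intro x hx y hy hxy
    have hne : (⟨x, hx⟩ : P.C) ≠ ⟨y, hy⟩ := by
      intro h
      have h1 : x = y := congrArg Subtype.val h
      rw [← h1, hx.2] at hxy
      linarith
    have h1 := hcon ⟨x, hx⟩ ⟨y, hy⟩ hne (by
      rw [P.X_inner]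
      show inner ℝ x y / P.m = 1 / 2
      rw [hxy]; field_simp)
    rw [X, X, inner_smul_left, inner_smul_left, conj_trivial, ← mul_add] at h1
    have h2 : inner ℝ x (v ⟨y, hy⟩) + inner ℝ y (v ⟨x, hx⟩) ≤ 0 := by
      by_contra h3
      push Not at h3
      have := mul_pos (inv_pos.mpr hsq) h3
      linarith
    rw [hwC x hx, hwC y hy, real_inner_comm y]
    linarith
  set s : Finset E := hfin.toFinset with hs
  have hmem : ∀ x, x ∈ s ↔ x ∈ P.C := fun x => hfin.mem_toFinset
  have hrow : ∀ x ∈ s, ∑ y ∈ s, (if inner ℝ x y = P.m / 2 then inner ℝ (w x) y else 0) = 0 := by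
    intro x hx
    rw [hmem] at hx
    rw [← Finset.sum_filter]
    have h1 : ∑ y ∈ s.filter (fun y => inner ℝ x y = P.m / 2), inner ℝ (w x) y =
        ∑ y ∈ s.filter (fun y => inner ℝ x y = P.m / 2), inner ℝ (w x) (x - y) := by
      refine Finset.sum_nbij' (fun y => x - y) (fun y => x - y) ?_ ?_ ?_ ?_ ?_
      · intro y hy
        rw [Finset.mem_filter, hmem] at hy ⊢
        refine ⟨P.sub_mem_C hx hy.1 hy.2, ?_⟩
        rw [inner_sub_right, hx.2, hy.2]; ring
      · intro y hy
        rw [Finset.mem_filter, hmem] at hy ⊢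
        refine ⟨P.sub_mem_C hx hy.1 hy.2, ?_⟩
        rw [inner_sub_right, hx.2, hy.2]; ring
      · intro y _; abel
      · intro y _; abel
      · intro y _
        congr 1
        abel
    have h2 : ∑ y ∈ s.filter (fun y => inner ℝ x y = P.m / 2), inner ℝ (w x) (x - y) =
        - ∑ y ∈ s.filter (fun y => inner ℝ x y = P.m / 2), inner ℝ (w x) y := by
      rw [← Finset.sum_neg_distrib]
      refine Finset.sum_congr rfl fun y _ => ?_
      rw [inner_sub_right, ht x hx, zero_sub]
    linarith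
  have htot : ∑ x ∈ s, ∑ y ∈ s, (if inner ℝ x y = P.m / 2 then
      inner ℝ (w x) y + inner ℝ x (w y) else 0) = 0 := by
    have h1 : ∀ x y : E, (if inner ℝ x y = P.m / 2 then
        inner ℝ (w x) y + inner ℝ x (w y) else 0) =
        (if inner ℝ x y = P.m / 2 then inner ℝ (w x) y else 0) +
        (if inner ℝ y x = P.m / 2 then inner ℝ (w y) x else 0) := by
      intro x y
      rw [real_inner_comm x y, real_inner_comm x (w y)]
      split_ifs <;> ring
    simp only [h1, Finset.sum_add_distrib]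
    rw [Finset.sum_comm (f := fun x y => if inner ℝ y x = P.m / 2 then inner ℝ (w y) x else 0)]
    rw [Finset.sum_eq_zero hrow, add_zero]
  have hterm : ∀ x ∈ P.C, ∀ y ∈ P.C, inner ℝ x y = P.m / 2 →
      inner ℝ (w x) y + inner ℝ x (w y) = 0 := by
    intro x hx y hy hxy
    have hnp : ∀ x ∈ s, ∀ y ∈ s, (if inner ℝ x y = P.m / 2 then
        inner ℝ (w x) y + inner ℝ x (w y) else 0) ≤ 0 := by
      intro x hx y hy
      split_ifs with h
      · exact hle x ((hmem x).mp hx) y ((hmem y).mp hy) h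
      · exact le_rfl
    have h1 := (Finset.sum_eq_zero_iff_of_nonpos fun x hx =>
      Finset.sum_nonpos fun y hy => hnp x hx y hy).mp htot x ((hmem x).mpr hx)
    have h2 := (Finset.sum_eq_zero_iff_of_nonpos fun y hy =>
      hnp x ((hmem x).mpr hx) y hy).mp h1 y ((hmem y).mpr hy)
    rwa [if_pos hxy] at h2
  obtain ⟨A, hA, hAv⟩ := hIR w ht hterm
  refine ⟨LinearMap.toContinuousLinearMap (√P.m • A), fun u z => ?_, fun x => ?_⟩
  · simp only [LinearMap.coe_toContinuousLinearMap', LinearMap.smul_apply, inner_smul_left,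
      inner_smul_right, conj_trivial, hA]
    ring
  · show v x = (√P.m • A) ((√P.m)⁻¹ • (x : E))
    rw [LinearMap.smul_apply, map_smul, smul_smul, mul_inv_cancel₀ hsq.ne', one_smul,
      ← hAv x x.2, hwC x x.2]

/-- Jamming of the shells at sixty degrees. -/
theorem jammed_half [FiniteDimensional ℝ E] (hfin : P.C.Finite) (hIR : P.IR)
    (hex : ∃ x ∈ P.C, ∃ y ∈ P.C, inner ℝ x y = P.m / 2) :
    IsJammedCode (kissingConfiguration (P.L : Set E)) := by
  have hm := P.mpos
  obtain ⟨x, hx, y, hy, hxy⟩ := hex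
  refine P.jammed hfin ⟨x, hx⟩ (1 / 2) (by norm_num) (by norm_num) (P.infJammed hfin hIR)
    ⟨x, hx, y, hy, ?_, by rw [hxy]; ring⟩ (fun x hx y hy hne => ?_)
  · rintro rfl
    rw [hx.2] at hxy
    linarith
  · have := P.inn_le hx hy hne
    linarith

end Lvl

namespace Base

variable {P : Lvl E} (B : Base P)

include B

theorem infJammed [FiniteDimensional ℝ E] : InfJammed P.X 0 := by
  classical
  intro v hv hcon
  have hm := P.mpos
  have hsq := P.sqrt_pos
  set w : E → E := fun x => if h : x ∈ P.C then v ⟨x, h⟩ else 0 with hw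
  have hwC : ∀ (x : E) (h : x ∈ P.C), w x = v ⟨x, h⟩ := by
    intro x h; simp [hw, h]
  set φ : E → ℝ := fun x => inner ℝ (w x) (P.I x) / P.m with hφ
  have ht : ∀ x ∈ P.C, w x = φ x • P.I x := by
    intro x hx
    have h1 := hv ⟨x, hx⟩
    rw [Lvl.X, inner_smul_left, conj_trivial] at h1
    have h2 : inner ℝ (w x) x = 0 := by
      rw [hwC x hx, real_inner_comm]
      exact (mul_eq_zero.mp h1).resolve_left (inv_ne_zero hsq.ne')
    rw [← sub_eq_zero]
    refine B.ext0 hx _ ?_ ?_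
    · rw [inner_sub_left, h2, inner_smul_left, P.inn_I_self', mul_zero, sub_zero]
    · rw [inner_sub_left, inner_smul_left, P.innI, hx.2, conj_trivial, hφ]
      field_simp
      ring
  have hmono : ∀ x ∈ P.C, φ x ≤ φ (P.I x) := by
    intro x hx
    have hIx := P.C_I hx
    have hne : (⟨x, hx⟩ : P.C) ≠ ⟨P.I x, hIx⟩ := by
      intro h
      have h1 : x = P.I x := congrArg Subtype.val h
      have h2 := P.inn_I_self x
      rw [← h1, hx.2] at h2
      linarith
    have h1 := hcon ⟨x, hx⟩ ⟨P.I x, hIx⟩ hne (by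
      rw [P.X_inner]
      show inner ℝ x (P.I x) / P.m = 0
      rw [P.inn_I_self, zero_div])
    rw [Lvl.X, Lvl.X, inner_smul_left, inner_smul_left, conj_trivial, ← mul_add] at h1
    have h2 : inner ℝ x (v ⟨P.I x, hIx⟩) + inner ℝ (P.I x) (v ⟨x, hx⟩) ≤ 0 := by
      by_contra h3
      push Not at h3
      have := mul_pos (inv_pos.mpr hsq) h3
      linarith
    rw [← hwC x hx, ← hwC _ hIx, ht x hx, ht _ hIx, inner_smul_right, inner_smul_right, P.innI,
      P.II, inner_neg_right, hx.2] at h2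
    by_contra h3
    push Not at h3
    have := mul_pos (sub_pos.mpr h3) hm
    linarith
  have h1 := hmono _ B.e_mem
  have h2 := hmono _ (P.C_I B.e_mem)
  have h3 := hmono _ (P.C_neg B.e_mem)
  have h4 := hmono _ (P.C_neg (P.C_I B.e_mem))
  rw [P.II] at h2
  rw [map_neg] at h3
  rw [map_neg, P.II, neg_neg] at h4
  have hconst : ∀ x ∈ P.C, φ x = φ B.e := by
    intro x hx
    rcases B.cases hx with rfl | rfl | rfl | rfl <;> linarith
  refine ⟨LinearMap.toContinuousLinearMap ((√P.m * φ B.e) • P.I), fun u z => ?_, fun x => ?_⟩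
  · show inner ℝ (((√P.m * φ B.e) • P.I) u) z = - inner ℝ u (((√P.m * φ B.e) • P.I) z)
    rw [LinearMap.smul_apply, LinearMap.smul_apply, inner_smul_left, inner_smul_right, P.I_skew,
      conj_trivial]
    ring
  · show v x = ((√P.m * φ B.e) • P.I) ((√P.m)⁻¹ • (x : E))
    have h5 := ht x x.2
    rw [hwC x x.2, hconst x x.2] at h5
    rw [LinearMap.smul_apply, map_smul, smul_smul, mul_comm (√P.m), mul_assoc,
      mul_inv_cancel₀ hsq.ne', mul_one]
    exact h5

/-- Jamming of the square. -/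
theorem jammed [FiniteDimensional ℝ E] :
    IsJammedCode (kissingConfiguration (P.L : Set E)) := by
  have hm := P.mpos
  refine P.jammed B.good.fin B.good.ne 0 (by norm_num) (by norm_num) B.infJammed
    ⟨B.e, B.e_mem, P.I B.e, P.C_I B.e_mem, ?_, by rw [P.inn_I_self, zero_mul]⟩
    (fun x hx y hy hne => ?_)
  · intro h
    have h2 := P.inn_I_self B.e
    rw [← h, B.inn] at h2
    linarith
  · rw [zero_mul]
    rcases B.rel hx hy with rfl | rfl | rfl | rfl
    · exact absurd rfl hne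
    · rw [inner_neg_right, hx.2]; linarith
    · rw [P.inn_I_self]
    · rw [inner_neg_right, P.inn_I_self, neg_zero]

end Base

end Q184.BW
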